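import Pool.Agent.N324.Dig.Main

/-!
Special cases: algebraic integers, products, powers.
-/

set_option autoImplicit false

namespace Pool.Agent.N324.Dig

open Finset

section
variable {σ : Type} [Fintype σ]

/-- the monomials of `A` are at most `T` at the point `d` -/
def Bd (d : σ → ℝ) (A : MvPolynomial σ ℤ) (T : ℝ) : Prop := ∀ α ∈ A.support, ∏ i, d i ^ α i ≤ T

theorem Bd.mono {d : σ → ℝ} {A : MvPolynomial σ ℤ} {T T' : ℝ} (h : Bd d A T) (hT : T ≤ T') :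
    Bd d A T' := fun α hα => (h α hα).trans hT

theorem Bd.add [DecidableEq σ] {d : σ → ℝ} {A B : MvPolynomial σ ℤ} {T : ℝ} (hA : Bd d A T)
    (hB : Bd d B T) : Bd d (A + B) T := by
  intro α hα
  rcases Finset.mem_union.1 (MvPolynomial.support_add hα) with h | h
  · exact hA α h
  · exact hB α h

theorem Bd_C {d : σ → ℝ} (a : ℤ) {T : ℝ} (hT : 1 ≤ T) : Bd d (MvPolynomial.C a) T := by
  classical
  intro α hα
  rw [MvPolynomial.mem_support_iff, MvPolynomial.coeff_C] at hα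
  have h0 : α = 0 := by
    by_contra h
    exact hα (if_neg fun h' => h h'.symm)
  subst h0
  simpa using hT

theorem Bd_X [DecidableEq σ] {d : σ → ℝ} (j : σ) : Bd d (MvPolynomial.X j : MvPolynomial σ ℤ) (d j) := by
  intro α hα
  rw [MvPolynomial.mem_support_iff, MvPolynomial.coeff_X] at hα
  have h0 : α = Finsupp.single j 1 := by
    by_contra h
    exact hα (if_neg fun h' => h h'.symm)
  subst h0
  refine le_of_eq ?_
  rw [Finset.prod_eq_single j]
  · simp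
  · intro i _ hij
    simp [hij.symm]
  · intro h; exact absurd (mem_univ j) h

theorem Bd.mul [DecidableEq σ] {d : σ → ℝ} (hd : ∀ i, 0 ≤ d i) {A B : MvPolynomial σ ℤ} {T U : ℝ}
    (hT : 0 ≤ T) (hA : Bd d A T) (hB : Bd d B U) : Bd d (A * B) (T * U) := by
  intro α hα
  have h := MvPolynomial.support_mul A B hα
  rw [Finset.mem_add] at h
  obtain ⟨β, hβ, γ, hγ, rfl⟩ := h
  have h1 : ∏ i, d i ^ (β + γ) i = (∏ i, d i ^ β i) * ∏ i, d i ^ γ i := by
    rw [← Finset.prod_mul_distrib]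
    refine Finset.prod_congr rfl fun i _ => ?_
    rw [Finsupp.add_apply, pow_add]
  rw [h1]
  exact mul_le_mul (hA β hβ) (hB γ hγ) (Finset.prod_nonneg fun i _ => pow_nonneg (hd i) _) hT

theorem Bd.pow [DecidableEq σ] {d : σ → ℝ} (hd : ∀ i, 0 ≤ d i) {A : MvPolynomial σ ℤ} {T : ℝ}
    (hT : 1 ≤ T) (hA : Bd d A T) (k : ℕ) : Bd d (A ^ k) (T ^ k) := by
  induction k with
  | zero =>
    rw [pow_zero, pow_zero]
    have := Bd_C (d := d) 1 (T := 1) le_rfl
    simpa using this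
  | succ k ih =>
    rw [pow_succ, pow_succ]
    exact ih.mul hd (by positivity) hA

theorem Bd.C_mul [DecidableEq σ] {d : σ → ℝ} (hd : ∀ i, 0 ≤ d i) {A : MvPolynomial σ ℤ} {T : ℝ}
    (a : ℤ) (hA : Bd d A T) : Bd d (MvPolynomial.C a * A) T := by
  have := (Bd_C (d := d) a (T := 1) le_rfl).mul hd zero_le_one hA
  simpa using this

theorem Bd_sum [DecidableEq σ] {ι : Type} {d : σ → ℝ} {T : ℝ} (s : Finset ι)
    (A : ι → MvPolynomial σ ℤ) (h : ∀ i ∈ s, Bd d (A i) T) : Bd d (∑ i ∈ s, A i) T := by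
  classical
  induction s using Finset.induction_on with
  | empty => rw [Finset.sum_empty]; intro α hα; simp at hα
  | insert a s ha ih =>
    rw [Finset.sum_insert ha]
    exact (h a (Finset.mem_insert_self _ _)).add (ih fun i hi => h i (Finset.mem_insert_of_mem hi))

theorem rhs_le [DecidableEq σ] {b : ℕ} {A : MvPolynomial σ ℤ} {x y : σ → ℝ} {N : ℕ} {T : ℝ}
    (hT : 0 ≤ T) (h : Bd (fun i => (dist b (x i) (y i) N : ℝ) + 1) A T) :
    rhs b A x y N ≤ A.support.card * T := by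
  unfold rhs
  calc _ ≤ ∑ α ∈ A.support.erase 0, T := Finset.sum_le_sum fun α hα =>
        h α (Finset.mem_of_mem_erase hα)
    _ = (A.support.erase 0).card * T := by rw [Finset.sum_const, nsmul_eq_mul]
    _ ≤ _ := by
        refine mul_le_mul_of_nonneg_right ?_ hT
        exact_mod_cast Finset.card_le_card (Finset.erase_subset _ _)

omit [Fintype σ] in
/-- reduction modulo `n` -/
theorem of_map {n : ℕ} {A : MvPolynomial σ ℤ} {e : ZMod n} (he : e ≠ 0)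
    (h : MvPolynomial.map (Int.castRingHom (ZMod n)) A = MvPolynomial.C e) :
    ¬ (n : ℤ) ∣ A.coeff 0 ∧ ∀ α, α ≠ 0 → (n : ℤ) ∣ A.coeff α := by
  classical
  have h1 : ∀ α, ((A.coeff α : ℤ) : ZMod n) = if 0 = α then e else 0 := by
    intro α
    have := congrArg (MvPolynomial.coeff α) h
    rw [MvPolynomial.coeff_map, MvPolynomial.coeff_C] at this
    simpa using this
  constructor
  · intro hd
    have h2 := h1 0
    rw [if_pos rfl, (ZMod.intCast_zmod_eq_zero_iff_dvd _ _).2 hd] at h2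
    exact he h2.symm
  · intro α hα
    rw [← ZMod.intCast_zmod_eq_zero_iff_dvd, h1 α, if_neg (Ne.symm hα)]

end

theorem map_term {R : Type} [CommRing R] (f : ℤ →+* R) (a s r : ℤ) (i : ℕ) :
    MvPolynomial.map f (MvPolynomial.C a * (MvPolynomial.C s * MvPolynomial.X () +
      MvPolynomial.C r) ^ i) =
    MvPolynomial.C (f a) * (MvPolynomial.C (f s) * MvPolynomial.X () + MvPolynomial.C (f r)) ^ i := by
  rw [map_mul (MvPolynomial.map f), map_pow, map_add, map_mul (MvPolynomial.map f),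
    MvPolynomial.map_C, MvPolynomial.map_C, MvPolynomial.map_C, MvPolynomial.map_X]

theorem aeval_term (x : Unit → ℝ) (a s r : ℤ) (i : ℕ) :
    MvPolynomial.aeval x (MvPolynomial.C a * (MvPolynomial.C s * MvPolynomial.X () +
      MvPolynomial.C r) ^ i : MvPolynomial Unit ℤ) = (a : ℝ) * ((s : ℝ) * x () + r) ^ i := by
  rw [map_mul (MvPolynomial.aeval x), map_pow, map_add, map_mul (MvPolynomial.aeval x),
    MvPolynomial.aeval_C, MvPolynomial.aeval_C, MvPolynomial.aeval_C, MvPolynomial.aeval_X]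
  rfl

/-- the polynomial for products -/
noncomputable def pp (a b c d e : ℤ) : MvPolynomial (Fin 3) ℤ :=
  MvPolynomial.C a * (MvPolynomial.X 0 * MvPolynomial.X 1) + MvPolynomial.C b * MvPolynomial.X 0 +
    MvPolynomial.C c * MvPolynomial.X 1 + MvPolynomial.C d * MvPolynomial.X 2 + MvPolynomial.C e

theorem map_pp {R : Type} [CommRing R] (f : ℤ →+* R) {a b c d : ℤ} (e : ℤ) (ha : f a = 0)
    (hb : f b = 0) (hc : f c = 0) (hd : f d = 0) :
    MvPolynomial.map f (pp a b c d e) = MvPolynomial.C (f e) := by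
  unfold pp
  rw [map_add, map_add, map_add, map_add, map_mul (MvPolynomial.map f) (MvPolynomial.C a),
    map_mul (MvPolynomial.map f) (MvPolynomial.C b), map_mul (MvPolynomial.map f) (MvPolynomial.C c),
    map_mul (MvPolynomial.map f) (MvPolynomial.C d), MvPolynomial.map_C, MvPolynomial.map_C,
    MvPolynomial.map_C, MvPolynomial.map_C, MvPolynomial.map_C, ha, hb, hc, hd]
  simp

theorem aeval_pp (x : Fin 3 → ℝ) (a b c d e : ℤ) :
    MvPolynomial.aeval x (pp a b c d e) =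
      (a : ℝ) * (x 0 * x 1) + b * x 0 + c * x 1 + d * x 2 + e := by
  unfold pp
  rw [map_add, map_add, map_add, map_add, map_mul (MvPolynomial.aeval x) (MvPolynomial.C a),
    map_mul (MvPolynomial.aeval x) (MvPolynomial.X 0),
    map_mul (MvPolynomial.aeval x) (MvPolynomial.C b), map_mul (MvPolynomial.aeval x) (MvPolynomial.C c),
    map_mul (MvPolynomial.aeval x) (MvPolynomial.C d), MvPolynomial.aeval_C, MvPolynomial.aeval_C,
    MvPolynomial.aeval_C, MvPolynomial.aeval_C, MvPolynomial.aeval_C, MvPolynomial.aeval_X,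
    MvPolynomial.aeval_X, MvPolynomial.aeval_X]
  rfl

/-- the polynomial for powers -/
noncomputable def qq (a s r b c : ℤ) (k : ℕ) : MvPolynomial (Fin 2) ℤ :=
  MvPolynomial.C a * (MvPolynomial.C s * MvPolynomial.X 0 + MvPolynomial.C r) ^ k +
    MvPolynomial.C b * MvPolynomial.X 1 + MvPolynomial.C c

theorem map_qq {R : Type} [CommRing R] (f : ℤ →+* R) {a s r b c : ℤ} (k : ℕ) (ha : f a * f s = 0)
    (hb : f b = 0) :
    MvPolynomial.map f (qq a s r b c k) = MvPolynomial.C (f a * f r ^ k + f c) := by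
  have h1 : ∀ k : ℕ, (MvPolynomial.C (f a) : MvPolynomial (Fin 2) R) *
      (MvPolynomial.C (f s) * MvPolynomial.X 0 + MvPolynomial.C (f r)) ^ k =
      MvPolynomial.C (f a) * MvPolynomial.C (f r) ^ k := by
    intro k
    induction k with
    | zero => rw [pow_zero, pow_zero]
    | succ k ih =>
      rw [pow_succ, ← mul_assoc, ih, pow_succ, mul_add]
      have h2 : (MvPolynomial.C (f a) : MvPolynomial (Fin 2) R) * MvPolynomial.C (f s) = 0 := by
        rw [← map_mul, ha, map_zero]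
      have h3 : (MvPolynomial.C (f a) : MvPolynomial (Fin 2) R) * MvPolynomial.C (f r) ^ k *
          (MvPolynomial.C (f s) * MvPolynomial.X 0) =
          (MvPolynomial.C (f a) * MvPolynomial.C (f s)) * (MvPolynomial.C (f r) ^ k * MvPolynomial.X 0) := by
        ring
      rw [h3, h2, zero_mul, zero_add]
      ring
  unfold qq
  rw [map_add, map_add, map_mul (MvPolynomial.map f) (MvPolynomial.C a), map_pow, map_add,
    map_mul (MvPolynomial.map f) (MvPolynomial.C s),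
    map_mul (MvPolynomial.map f) (MvPolynomial.C b), MvPolynomial.map_C, MvPolynomial.map_C,
    MvPolynomial.map_C, MvPolynomial.map_C, MvPolynomial.map_C, MvPolynomial.map_X, h1, hb]
  simp

theorem aeval_qq (x : Fin 2 → ℝ) (a s r b c : ℤ) (k : ℕ) :
    MvPolynomial.aeval x (qq a s r b c k) = (a : ℝ) * ((s : ℝ) * x 0 + r) ^ k + b * x 1 + c := by
  unfold qq
  rw [map_add, map_add, map_mul (MvPolynomial.aeval x) (MvPolynomial.C a), map_pow, map_add,
    map_mul (MvPolynomial.aeval x) (MvPolynomial.C s),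
    map_mul (MvPolynomial.aeval x) (MvPolynomial.C b), MvPolynomial.aeval_C, MvPolynomial.aeval_C,
    MvPolynomial.aeval_C, MvPolynomial.aeval_C, MvPolynomial.aeval_C, MvPolynomial.aeval_X,
    MvPolynomial.aeval_X]
  rfl

/-- algebraic integers -/
theorem alg_int {b : ℕ} (hb : 2 ≤ b) {p : ℕ} (hp : p.Prime) (hpb : ¬ p ∣ b) {P : Polynomial ℤ}
    (hP : P.Monic) {ξ : ℝ} (hξ : Polynomial.aeval ξ P = 0) {r s : ℤ} (hs0 : s ≠ 0)
    (hs : (p : ℤ) ∣ s) (hr : ¬ (p : ℤ) ∣ r) :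
    ∃ c : ℝ, 0 < c ∧ ∀ z : ℝ, ∀ N : ℕ,
      c * (N : ℝ) ^ (1 / (P.natDegree : ℝ)) ≤ (dist b (z + ξ) (z + (r : ℝ) / s) N : ℝ) + 1 := by
  have hpF : Fact p.Prime := ⟨hp⟩
  set D := P.natDegree with hD
  have hD0 : D ≠ 0 := by
    intro h0
    have h1 : P = 1 := Polynomial.eq_one_of_monic_natDegree_zero hP h0
    rw [h1] at hξ
    simp at hξ
  set A : MvPolynomial Unit ℤ := ∑ i ∈ range (D + 1), MvPolynomial.C (P.coeff i * s ^ (D - i)) *
    (MvPolynomial.C s * MvPolynomial.X () + MvPolynomial.C r) ^ i with hA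
  have hmap : MvPolynomial.map (Int.castRingHom (ZMod p)) A = MvPolynomial.C ((r : ZMod p) ^ D) := by
    rw [hA, map_sum]
    rw [Finset.sum_eq_single D]
    · rw [map_term]
      have h1 : (Int.castRingHom (ZMod p)) s = 0 := by
        simpa using (ZMod.intCast_zmod_eq_zero_iff_dvd s p).2 hs
      rw [h1, Nat.sub_self, pow_zero, mul_one, hP.coeff_natDegree]
      simp
    · intro i hi hiD
      have hi' : i < D := by have := mem_range.1 hi; omega
      rw [map_term]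
      have h1 : (Int.castRingHom (ZMod p)) (P.coeff i * s ^ (D - i)) = 0 := by
        have h2 : (Int.castRingHom (ZMod p)) s = 0 := by
          simpa using (ZMod.intCast_zmod_eq_zero_iff_dvd s p).2 hs
        rw [map_mul, map_pow, h2, zero_pow (by omega), mul_zero]
      rw [h1, map_zero, zero_mul]
    · intro h; exact absurd (mem_range.2 (Nat.lt_succ_self D)) h
  have hr0 : (r : ZMod p) ≠ 0 := fun h => hr ((ZMod.intCast_zmod_eq_zero_iff_dvd r p).1 h)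
  obtain ⟨hA0, hA1⟩ := of_map (pow_ne_zero D hr0) hmap
  have hcop : IsCoprime (p : ℤ) (b : ℤ) := by
    rw [Nat.isCoprime_iff_coprime]
    exact (Nat.Prime.coprime_iff_not_dvd hp).2 hpb
  obtain ⟨c, hc, h⟩ := general hb hcop A hA0 hA1 |ξ - r / s|
  have hsR : (s : ℝ) ≠ 0 := by exact_mod_cast hs0
  have hcard : 0 < (A.support.card : ℝ) := by
    have : A.support.Nonempty := by
      refine ⟨0, ?_⟩
      rw [MvPolynomial.mem_support_iff]
      intro h0
      exact hA0 (by rw [h0]; exact dvd_zero _)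
    exact_mod_cast Finset.card_pos.2 this
  refine ⟨(c / A.support.card) ^ (1 / (D : ℝ)), by positivity, fun z N => ?_⟩
  have h1 := h (fun _ => z + ξ) (fun _ => z + (r : ℝ) / s) (fun _ => by
    refine le_of_eq ?_
    congr 1
    ring) (by
    rw [hA, map_sum]
    have h2 : ∀ i ∈ range (D + 1), (MvPolynomial.aeval fun _ : Unit => z + ξ - (z + (r : ℝ) / s))
        (MvPolynomial.C (P.coeff i * s ^ (D - i)) *
          (MvPolynomial.C s * MvPolynomial.X () + MvPolynomial.C r) ^ i) =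
        (s : ℝ) ^ D * ((P.coeff i : ℝ) * ξ ^ i) := by
      intro i hi
      have hi' : i ≤ D := by have := mem_range.1 hi; omega
      rw [aeval_term]
      have h3 : (s : ℝ) * (z + ξ - (z + (r : ℝ) / s)) + r = s * ξ := by
        field_simp
        ring
      rw [h3, mul_pow]
      push_cast
      have h4 : (s : ℝ) ^ D = (s : ℝ) ^ (D - i) * (s : ℝ) ^ i := by
        rw [← pow_add]; congr 1; omega
      rw [h4]
      ring
    rw [Finset.sum_congr rfl h2, ← Finset.mul_sum]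
    have h5 : ∑ i ∈ range (D + 1), (P.coeff i : ℝ) * ξ ^ i = 0 := by
      rw [Polynomial.aeval_eq_sum_range] at hξ
      rw [← hξ]
      refine Finset.sum_congr rfl fun i _ => ?_
      simp
    rw [h5, mul_zero]) N
  set t : ℝ := (dist b (z + ξ) (z + (r : ℝ) / s) N : ℝ) + 1 with ht
  have ht1 : 1 ≤ t := one_le_dist _ _ _ _
  have h2 : rhs b A (fun _ => z + ξ) (fun _ => z + (r : ℝ) / s) N ≤ A.support.card * t ^ D := by
    refine rhs_le (by positivity) ?_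
    rw [← ht, hA]
    refine Bd_sum _ _ fun i hi => ?_
    refine Bd.C_mul (fun _ => by positivity) _ ?_
    have hi' : i ≤ D := by have := mem_range.1 hi; omega
    refine Bd.mono ?_ (pow_le_pow_right₀ ht1 hi')
    refine Bd.pow (fun _ => by positivity) ht1 ?_ i
    exact ((Bd_X (d := fun _ : Unit => t) ()).C_mul (fun _ => by positivity) s).add (Bd_C r ht1)
  have h3 : c / A.support.card * N ≤ t ^ D := by
    rw [div_mul_eq_mul_div, div_le_iff₀ hcard]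
    linarith
  have h4 : (c / A.support.card * N) ^ (1 / (D : ℝ)) ≤ t := by
    calc _ ≤ (t ^ D) ^ (1 / (D : ℝ)) := Real.rpow_le_rpow (by positivity) h3 (by positivity)
      _ = t := by
        rw [← Real.rpow_natCast, ← Real.rpow_mul (by positivity), mul_one_div,
          div_self (by exact_mod_cast hD0), Real.rpow_one]
  rwa [Real.mul_rpow (by positivity) (by positivity)] at h4

/-- products -/
theorem prod_case {b : ℕ} (hb : 2 ≤ b) {p : ℕ} (hp : p.Prime) (hpb : ¬ p ∣ b)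
    {r₁ s₁ r₂ s₂ r₃ s₃ : ℤ} (h10 : s₁ ≠ 0) (h20 : s₂ ≠ 0) (h30 : s₃ ≠ 0)
    (hs1 : (p : ℤ) ∣ s₁) (hs2 : (p : ℤ) ∣ s₂) (hr1 : ¬ (p : ℤ) ∣ r₁) (hr2 : ¬ (p : ℤ) ∣ r₂)
    (hs3 : ¬ (p : ℤ) ^ 2 ∣ s₃) (u v : ℝ) :
    ∃ c : ℝ, 0 < c ∧ ∀ z₁ z₂ z₃ : ℝ, ∀ N : ℕ,
      c * (N : ℝ) ≤ ((dist b (z₁ + u) (z₁ + (r₁ : ℝ) / s₁) N : ℝ) + 1) *
        ((dist b (z₂ + v) (z₂ + (r₂ : ℝ) / s₂) N : ℝ) + 1) +
        ((dist b (z₃ + u * v) (z₃ + (r₃ : ℝ) / s₃) N : ℝ) + 1) := by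
  have hpF : Fact p.Prime := ⟨hp⟩
  have hpZ : Prime (p : ℤ) := Nat.prime_iff_prime_int.1 hp
  obtain ⟨w, hw1, hw2, hw3⟩ : ∃ w : ℕ, w ≤ 1 ∧ (p : ℤ) ^ w ∣ s₃ ∧ ¬ (p : ℤ) ^ (w + 1) ∣ s₃ := by
    by_cases h : (p : ℤ) ∣ s₃
    · exact ⟨1, le_rfl, by simpa using h, by simpa using hs3⟩
    · exact ⟨0, by omega, by simp, by simpa using h⟩
  set n : ℕ := p ^ (w + 1) with hn
  have hnZ : ((n : ℕ) : ℤ) = (p : ℤ) ^ (w + 1) := by rw [hn]; push_cast; rfl
  obtain ⟨A, hA⟩ : ∃ A, A = pp (s₁ * s₂ * s₃) (s₁ * r₂ * s₃) (r₁ * s₂ * s₃) (-(s₁ * s₂ * s₃))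
    (s₃ * r₁ * r₂ - s₁ * s₂ * r₃) := ⟨_, rfl⟩
  have hd1 : (p : ℤ) ^ (w + 1) ∣ s₁ * s₃ := by
    rw [pow_succ, mul_comm s₁]; exact mul_dvd_mul hw2 hs1
  have hd2 : (p : ℤ) ^ (w + 1) ∣ s₂ * s₃ := by
    rw [pow_succ, mul_comm s₂]; exact mul_dvd_mul hw2 hs2
  have hd3 : (p : ℤ) ^ (w + 1) ∣ s₁ * s₂ :=
    (pow_dvd_pow _ (by omega : w + 1 ≤ 2)).trans (by rw [pow_two]; exact mul_dvd_mul hs1 hs2)
  have z0 : ∀ t : ℤ, (p : ℤ) ^ (w + 1) ∣ t → (Int.castRingHom (ZMod n)) t = 0 := by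
    intro t ht
    simpa using (ZMod.intCast_zmod_eq_zero_iff_dvd t n).2 (by rw [hnZ]; exact ht)
  have hmap : MvPolynomial.map (Int.castRingHom (ZMod n)) A =
      MvPolynomial.C ((Int.castRingHom (ZMod n)) (s₃ * r₁ * r₂)) := by
    rw [hA, map_pp _ _ (z0 (s₁ * s₂ * s₃) (by rw [mul_right_comm]; exact hd1.mul_right _))
      (z0 (s₁ * r₂ * s₃) (by rw [mul_right_comm]; exact hd1.mul_right _))
      (z0 (r₁ * s₂ * s₃) (by rw [mul_assoc]; exact hd2.mul_left _))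
      (z0 (-(s₁ * s₂ * s₃)) (by rw [mul_right_comm]; exact (hd1.mul_right _).neg_right)),
      map_sub, z0 (s₁ * s₂ * r₃) (hd3.mul_right _), sub_zero]
  have hne : (Int.castRingHom (ZMod n)) (s₃ * r₁ * r₂) ≠ 0 := by
    intro h
    have h1 : ((s₃ * r₁ * r₂ : ℤ) : ZMod n) = 0 := by simpa using h
    rw [ZMod.intCast_zmod_eq_zero_iff_dvd, hnZ] at h1
    have h2 := hpZ.pow_dvd_of_dvd_mul_right (w + 1) hr2 h1
    have h3 := hpZ.pow_dvd_of_dvd_mul_right (w + 1) hr1 h2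
    exact hw3 h3
  obtain ⟨hA0, hA1⟩ := of_map hne hmap
  have hcop : IsCoprime (n : ℤ) (b : ℤ) := by
    rw [Nat.isCoprime_iff_coprime, hn]
    exact Nat.Coprime.pow_left _ ((Nat.Prime.coprime_iff_not_dvd hp).2 hpb)
  set K : ℝ := |u - r₁ / s₁| + |v - r₂ / s₂| + |u * v - r₃ / s₃| with hK
  obtain ⟨c, hc, h⟩ := general hb hcop A hA0 hA1 K
  have h1R : (s₁ : ℝ) ≠ 0 := by exact_mod_cast h10
  have h2R : (s₂ : ℝ) ≠ 0 := by exact_mod_cast h20
  have h3R : (s₃ : ℝ) ≠ 0 := by exact_mod_cast h30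
  have hcard : 0 < (A.support.card : ℝ) := by
    have : A.support.Nonempty := by
      refine ⟨0, ?_⟩
      rw [MvPolynomial.mem_support_iff]
      intro h0
      exact hA0 (by rw [h0]; exact dvd_zero _)
    exact_mod_cast Finset.card_pos.2 this
  refine ⟨c / A.support.card, by positivity, fun z₁ z₂ z₃ N => ?_⟩
  have hrel := h ![z₁ + u, z₂ + v, z₃ + u * v] ![z₁ + (r₁ : ℝ) / s₁, z₂ + (r₂ : ℝ) / s₂,
    z₃ + (r₃ : ℝ) / s₃] (by
      intro i
      have e1 : z₁ + u - (z₁ + (r₁ : ℝ) / s₁) = u - r₁ / s₁ := by ring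
      have e2 : z₂ + v - (z₂ + (r₂ : ℝ) / s₂) = v - r₂ / s₂ := by ring
      have e3 : z₃ + u * v - (z₃ + (r₃ : ℝ) / s₃) = u * v - r₃ / s₃ := by ring
      have a1 := abs_nonneg (u - r₁ / s₁)
      have a2 := abs_nonneg (v - r₂ / s₂)
      have a3 := abs_nonneg (u * v - r₃ / s₃)
      fin_cases i
      · simp only [Fin.zero_eta, Matrix.cons_val_zero]
        rw [e1, hK]; linarith
      · simp only [Fin.mk_one, Matrix.cons_val_one, Matrix.cons_val_zero]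
        rw [e2, hK]; linarith
      · simp only [Fin.reduceFinMk, Matrix.cons_val]
        rw [e3, hK]; linarith) (by
      rw [hA, aeval_pp]
      simp only [Matrix.cons_val_zero, Matrix.cons_val_one, Matrix.cons_val]
      push_cast
      field_simp
      ring) N
  set t₁ : ℝ := (dist b (z₁ + u) (z₁ + (r₁ : ℝ) / s₁) N : ℝ) + 1 with ht₁
  set t₂ : ℝ := (dist b (z₂ + v) (z₂ + (r₂ : ℝ) / s₂) N : ℝ) + 1 with ht₂
  set t₃ : ℝ := (dist b (z₃ + u * v) (z₃ + (r₃ : ℝ) / s₃) N : ℝ) + 1 with ht₃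
  have h11 : 1 ≤ t₁ := one_le_dist _ _ _ _
  have h21 : 1 ≤ t₂ := one_le_dist _ _ _ _
  have h31 : 1 ≤ t₃ := one_le_dist _ _ _ _
  have hT1 : t₁ ≤ t₁ * t₂ + t₃ := by nlinarith
  have hT2 : t₂ ≤ t₁ * t₂ + t₃ := by nlinarith
  have hT3 : t₃ ≤ t₁ * t₂ + t₃ := by nlinarith
  have hT4 : t₁ * t₂ ≤ t₁ * t₂ + t₃ := by linarith
  have hT5 : 1 ≤ t₁ * t₂ + t₃ := by linarith
  have hdd : (fun i : Fin 3 => (dist b ((![z₁ + u, z₂ + v, z₃ + u * v] : Fin 3 → ℝ) i)
      ((![z₁ + (r₁ : ℝ) / s₁, z₂ + (r₂ : ℝ) / s₂, z₃ + (r₃ : ℝ) / s₃] : Fin 3 → ℝ) i) N : ℝ) + 1) =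
      ![t₁, t₂, t₃] := by
    funext i
    fin_cases i <;> simp [ht₁, ht₂, ht₃]
  have hd0 : ∀ i, 0 ≤ (![t₁, t₂, t₃] : Fin 3 → ℝ) i := by
    intro i
    fin_cases i
    · simp only [Fin.zero_eta, Matrix.cons_val_zero]; linarith
    · simp only [Fin.mk_one, Matrix.cons_val_one, Matrix.cons_val_zero]; linarith
    · simp only [Fin.reduceFinMk, Matrix.cons_val]; linarith
  have h2 := rhs_le (b := b) (A := A) (N := N)
    (x := ![z₁ + u, z₂ + v, z₃ + u * v]) (y := ![z₁ + (r₁ : ℝ) / s₁, z₂ + (r₂ : ℝ) / s₂,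
    z₃ + (r₃ : ℝ) / s₃]) (T := t₁ * t₂ + t₃) (by linarith) (by
      rw [hdd, hA]
      unfold pp
      refine Bd.add (Bd.add (Bd.add (Bd.add ?_ ?_) ?_) ?_) (Bd_C _ hT5)
      · refine Bd.C_mul hd0 _ ?_
        refine Bd.mono ((Bd_X 0).mul hd0 ?_ (Bd_X 1)) ?_
        · simpa using (by linarith : (0 : ℝ) ≤ t₁)
        · simpa using hT4
      · refine Bd.C_mul hd0 _ (Bd.mono (Bd_X 0) ?_)
        simpa using hT1
      · refine Bd.C_mul hd0 _ (Bd.mono (Bd_X 1) ?_)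
        simpa using hT2
      · refine Bd.C_mul hd0 _ (Bd.mono (Bd_X 2) ?_)
        simpa using hT3)
  rw [div_mul_eq_mul_div, div_le_iff₀ hcard]
  linarith

/-- powers -/
theorem pow_case {b : ℕ} (hb : 2 ≤ b) {p : ℕ} (hp : p.Prime) (hpb : ¬ p ∣ b)
    {r₁ s₁ r₂ s₂ : ℤ} (h10 : s₁ ≠ 0) (h20 : s₂ ≠ 0)
    (hs1 : (p : ℤ) ∣ s₁) (hr1 : ¬ (p : ℤ) ∣ r₁) {k : ℕ} (hs2 : ¬ (p : ℤ) ^ k ∣ s₂) (u : ℝ) :
    ∃ c : ℝ, 0 < c ∧ ∀ z₁ z₂ : ℝ, ∀ N : ℕ,
      c * (N : ℝ) ≤ ((dist b (z₁ + u) (z₁ + (r₁ : ℝ) / s₁) N : ℝ) + 1) ^ k +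
        ((dist b (z₂ + u ^ k) (z₂ + (r₂ : ℝ) / s₂) N : ℝ) + 1) := by
  have hpF : Fact p.Prime := ⟨hp⟩
  have hpZ : Prime (p : ℤ) := Nat.prime_iff_prime_int.1 hp
  obtain ⟨w, hwk, hw2, hw3⟩ : ∃ w : ℕ, w < k ∧ (p : ℤ) ^ w ∣ s₂ ∧ ¬ (p : ℤ) ^ (w + 1) ∣ s₂ := by
    have hex : ∃ j, ¬ (p : ℤ) ^ j ∣ s₂ := ⟨k, hs2⟩
    classical
    have hj := Nat.find_spec hex
    have hj0 : Nat.find hex ≠ 0 := by
      intro h
      rw [h] at hj
      exact hj (by simp)
    obtain ⟨w, hw⟩ := Nat.exists_eq_succ_of_ne_zero hj0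
    refine ⟨w, ?_, ?_, ?_⟩
    · have := Nat.find_min' hex hs2
      omega
    · by_contra h
      have := Nat.find_min' hex h
      omega
    · rw [hw] at hj
      exact hj
  set n : ℕ := p ^ (w + 1) with hn
  have hnZ : ((n : ℕ) : ℤ) = (p : ℤ) ^ (w + 1) := by rw [hn]; push_cast; rfl
  obtain ⟨A, hA⟩ : ∃ A, A = qq s₂ s₁ r₁ (-(s₁ ^ k * s₂)) (-(s₁ ^ k * r₂)) k := ⟨_, rfl⟩
  have hd1 : (p : ℤ) ^ (w + 1) ∣ s₂ * s₁ := by
    rw [pow_succ]; exact mul_dvd_mul hw2 hs1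
  have hd2 : (p : ℤ) ^ (w + 1) ∣ s₁ ^ k :=
    (pow_dvd_pow _ (by omega : w + 1 ≤ k)).trans (pow_dvd_pow_of_dvd hs1 k)
  have z0 : ∀ t : ℤ, (p : ℤ) ^ (w + 1) ∣ t → (Int.castRingHom (ZMod n)) t = 0 := by
    intro t ht
    simpa using (ZMod.intCast_zmod_eq_zero_iff_dvd t n).2 (by rw [hnZ]; exact ht)
  have hmap : MvPolynomial.map (Int.castRingHom (ZMod n)) A =
      MvPolynomial.C ((Int.castRingHom (ZMod n)) (s₂ * r₁ ^ k)) := by
    rw [hA, map_qq _ _ (by rw [← map_mul]; exact z0 _ hd1)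
      (z0 _ (hd2.mul_right _).neg_right), z0 _ (hd2.mul_right _).neg_right, add_zero,
      map_mul (Int.castRingHom (ZMod n)), map_pow (Int.castRingHom (ZMod n))]
  have hne : (Int.castRingHom (ZMod n)) (s₂ * r₁ ^ k) ≠ 0 := by
    intro h
    have h1 : ((s₂ * r₁ ^ k : ℤ) : ZMod n) = 0 := by simpa using h
    rw [ZMod.intCast_zmod_eq_zero_iff_dvd, hnZ] at h1
    exact hw3 (hpZ.pow_dvd_of_dvd_mul_right (w + 1) (fun h => hr1 (hpZ.dvd_of_dvd_pow h)) h1)
  obtain ⟨hA0, hA1⟩ := of_map hne hmap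
  have hcop : IsCoprime (n : ℤ) (b : ℤ) := by
    rw [Nat.isCoprime_iff_coprime, hn]
    exact Nat.Coprime.pow_left _ ((Nat.Prime.coprime_iff_not_dvd hp).2 hpb)
  set K : ℝ := |u - r₁ / s₁| + |u ^ k - r₂ / s₂| with hK
  obtain ⟨c, hc, h⟩ := general hb hcop A hA0 hA1 K
  have h1R : (s₁ : ℝ) ≠ 0 := by exact_mod_cast h10
  have h2R : (s₂ : ℝ) ≠ 0 := by exact_mod_cast h20
  have hcard : 0 < (A.support.card : ℝ) := by
    have : A.support.Nonempty := by
      refine ⟨0, ?_⟩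
      rw [MvPolynomial.mem_support_iff]
      intro h0
      exact hA0 (by rw [h0]; exact dvd_zero _)
    exact_mod_cast Finset.card_pos.2 this
  refine ⟨c / A.support.card, by positivity, fun z₁ z₂ N => ?_⟩
  have hrel := h ![z₁ + u, z₂ + u ^ k] ![z₁ + (r₁ : ℝ) / s₁, z₂ + (r₂ : ℝ) / s₂] (by
      intro i
      have e1 : z₁ + u - (z₁ + (r₁ : ℝ) / s₁) = u - r₁ / s₁ := by ring
      have e2 : z₂ + u ^ k - (z₂ + (r₂ : ℝ) / s₂) = u ^ k - r₂ / s₂ := by ring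
      have a1 := abs_nonneg (u - r₁ / s₁)
      have a2 := abs_nonneg (u ^ k - r₂ / s₂)
      fin_cases i
      · simp only [Fin.zero_eta, Matrix.cons_val_zero]
        rw [e1, hK]; linarith
      · simp only [Fin.mk_one, Matrix.cons_val_one, Matrix.cons_val_zero]
        rw [e2, hK]; linarith) (by
      rw [hA, aeval_qq]
      simp only [Matrix.cons_val_zero, Matrix.cons_val_one]
      have h3 : (s₁ : ℝ) * (z₁ + u - (z₁ + (r₁ : ℝ) / s₁)) + r₁ = s₁ * u := by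
        field_simp
        ring
      rw [h3, mul_pow]
      push_cast
      field_simp
      ring) N
  set t₁ : ℝ := (dist b (z₁ + u) (z₁ + (r₁ : ℝ) / s₁) N : ℝ) + 1 with ht₁
  set t₂ : ℝ := (dist b (z₂ + u ^ k) (z₂ + (r₂ : ℝ) / s₂) N : ℝ) + 1 with ht₂
  have h11 : 1 ≤ t₁ := one_le_dist _ _ _ _
  have h21 : 1 ≤ t₂ := one_le_dist _ _ _ _
  have hp1 : 1 ≤ t₁ ^ k := one_le_pow₀ h11
  have hdd : (fun i : Fin 2 => (dist b ((![z₁ + u, z₂ + u ^ k] : Fin 2 → ℝ) i)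
      ((![z₁ + (r₁ : ℝ) / s₁, z₂ + (r₂ : ℝ) / s₂] : Fin 2 → ℝ) i) N : ℝ) + 1) =
      ![t₁, t₂] := by
    funext i
    fin_cases i <;> simp [ht₁, ht₂]
  have hd0 : ∀ i, 0 ≤ (![t₁, t₂] : Fin 2 → ℝ) i := by
    intro i
    fin_cases i
    · simp only [Fin.zero_eta, Matrix.cons_val_zero]; linarith
    · simp only [Fin.mk_one, Matrix.cons_val_one, Matrix.cons_val_zero]; linarith
  have h2 := rhs_le (b := b) (A := A) (N := N)
    (x := ![z₁ + u, z₂ + u ^ k]) (y := ![z₁ + (r₁ : ℝ) / s₁, z₂ + (r₂ : ℝ) / s₂])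
    (T := t₁ ^ k + t₂) (by linarith) (by
      rw [hdd, hA]
      unfold qq
      refine Bd.add (Bd.add ?_ ?_) (Bd_C _ (by linarith))
      · refine Bd.C_mul hd0 _ (Bd.mono (Bd.pow hd0 (T := t₁) h11 ?_ k) (by linarith))
        refine (Bd.C_mul hd0 _ (Bd.mono (Bd_X 0) ?_)).add (Bd_C _ h11)
        simp
      · refine Bd.C_mul hd0 _ (Bd.mono (Bd_X 1) ?_)
        simpa using (by linarith : t₂ ≤ t₁ ^ k + t₂))
  rw [div_mul_eq_mul_div, div_le_iff₀ hcard]
  linarith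

end Pool.Agent.N324.Dig
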