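import Mathlib

/-!
Sparse power series and an integrality argument: the core of the lower bound for the Hamming
distance between the expansions of algebraically related numbers and periodic words.
-/

set_option autoImplicit false

namespace Pool.Agent.N324.Dig

open Finset PowerSeries

/-! ### evaluation of integer power series -/

/-- the `n`-th term -/
noncomputable def tm (φ : PowerSeries ℤ) (r : ℝ) (n : ℕ) : ℝ := (coeff n φ : ℤ) * r ^ n

/-- absolute summability -/
def Sm (φ : PowerSeries ℤ) (r : ℝ) : Prop := Summable (fun n => ‖tm φ r n‖)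

/-- the value -/
noncomputable def ev (φ : PowerSeries ℤ) (r : ℝ) : ℝ := ∑' n, tm φ r n

theorem tm_mul (φ ψ : PowerSeries ℤ) (r : ℝ) (n : ℕ) :
    tm (φ * ψ) r n = ∑ kl ∈ antidiagonal n, tm φ r kl.1 * tm ψ r kl.2 := by
  unfold tm
  rw [coeff_mul]
  push_cast
  rw [Finset.sum_mul]
  refine Finset.sum_congr rfl fun kl hkl => ?_
  rw [← HasAntidiagonal.mem_antidiagonal.1 hkl, pow_add]
  ring

theorem Sm.mul {φ ψ : PowerSeries ℤ} {r : ℝ} (h1 : Sm φ r) (h2 : Sm ψ r) : Sm (φ * ψ) r := by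
  unfold Sm
  simp only [tm_mul]
  exact summable_norm_sum_mul_antidiagonal_of_summable_norm h1 h2

theorem ev_mul {φ ψ : PowerSeries ℤ} {r : ℝ} (h1 : Sm φ r) (h2 : Sm ψ r) :
    ev (φ * ψ) r = ev φ r * ev ψ r := by
  unfold ev
  rw [tsum_mul_tsum_eq_tsum_sum_antidiagonal_of_summable_norm h1 h2]
  simp only [tm_mul]

theorem tm_add (φ ψ : PowerSeries ℤ) (r : ℝ) (n : ℕ) : tm (φ + ψ) r n = tm φ r n + tm ψ r n := by
  unfold tm
  rw [map_add]
  push_cast
  ring

theorem Sm.add {φ ψ : PowerSeries ℤ} {r : ℝ} (h1 : Sm φ r) (h2 : Sm ψ r) : Sm (φ + ψ) r := by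
  unfold Sm
  refine Summable.of_nonneg_of_le (fun n => norm_nonneg _) (fun n => ?_) (Summable.add h1 h2)
  rw [tm_add]
  exact norm_add_le _ _

theorem ev_add {φ ψ : PowerSeries ℤ} {r : ℝ} (h1 : Sm φ r) (h2 : Sm ψ r) :
    ev (φ + ψ) r = ev φ r + ev ψ r := by
  unfold ev
  simp only [tm_add]
  exact Summable.tsum_add h1.of_norm h2.of_norm

theorem tm_C (a : ℤ) (r : ℝ) (n : ℕ) : tm (C a) r n = if n = 0 then (a : ℝ) else 0 := by
  unfold tm
  rw [coeff_C]
  split_ifs with h
  · subst h; simp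
  · simp

theorem Sm_C (a : ℤ) (r : ℝ) : Sm (C a) r := by
  unfold Sm
  refine summable_of_ne_finset_zero (s := {0}) fun n hn => ?_
  rw [tm_C, if_neg (by simpa using hn), norm_zero]

theorem ev_C (a : ℤ) (r : ℝ) : ev (C a) r = a := by
  unfold ev
  rw [tsum_eq_single 0 (fun n hn => by rw [tm_C, if_neg hn]), tm_C, if_pos rfl]

theorem eval_poly {σ : Type} (F : σ → PowerSeries ℤ) (r : ℝ) (hF : ∀ i, Sm (F i) r)
    (A : MvPolynomial σ ℤ) :
    Sm (MvPolynomial.aeval F A) r ∧
      ev (MvPolynomial.aeval F A) r = MvPolynomial.aeval (fun i => ev (F i) r) A := by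
  induction A using MvPolynomial.induction_on with
  | C a =>
    have h : (MvPolynomial.aeval F (MvPolynomial.C a) : PowerSeries ℤ) = C a := by
      rw [MvPolynomial.aeval_C]; rfl
    rw [h]
    refine ⟨Sm_C a r, ?_⟩
    rw [ev_C, MvPolynomial.aeval_C]; rfl
  | add p q hp hq =>
    rw [map_add, map_add]
    exact ⟨hp.1.add hq.1, by rw [ev_add hp.1 hq.1, hp.2, hq.2]⟩
  | mul_X p i hp =>
    rw [map_mul, map_mul, MvPolynomial.aeval_X, MvPolynomial.aeval_X]
    exact ⟨hp.1.mul (hF i), by rw [ev_mul hp.1 (hF i), hp.2]⟩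

/-! ### the sum of the absolute values of the first coefficients -/

/-- the sum of the absolute values of the coefficients up to `M` -/
noncomputable def ln (φ : PowerSeries ℤ) (M : ℕ) : ℤ := ∑ n ∈ range (M + 1), |coeff n φ|

theorem ln_nonneg (φ : PowerSeries ℤ) (M : ℕ) : 0 ≤ ln φ M :=
  Finset.sum_nonneg fun _ _ => abs_nonneg _

theorem ln_add (φ ψ : PowerSeries ℤ) (M : ℕ) : ln (φ + ψ) M ≤ ln φ M + ln ψ M := by
  unfold ln
  rw [← Finset.sum_add_distrib]
  refine Finset.sum_le_sum fun n _ => ?_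
  rw [map_add]
  exact abs_add_le _ _

theorem ln_mul (φ ψ : PowerSeries ℤ) (M : ℕ) : ln (φ * ψ) M ≤ ln φ M * ln ψ M := by
  unfold ln
  have h1 : ∀ n ∈ range (M + 1), |coeff n (φ * ψ)| ≤
      ∑ kl ∈ antidiagonal n, |coeff kl.1 φ| * |coeff kl.2 ψ| := by
    intro n _
    rw [coeff_mul]
    refine (Finset.abs_sum_le_sum_abs _ _).trans (Finset.sum_le_sum fun kl _ => ?_)
    rw [abs_mul]
  refine (Finset.sum_le_sum h1).trans ?_
  rw [Finset.sum_mul_sum, ← Finset.sum_product', ← Finset.sum_biUnion]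
  · refine Finset.sum_le_sum_of_subset_of_nonneg ?_ fun kl _ _ => by positivity
    intro kl hkl
    simp only [mem_biUnion, mem_range, HasAntidiagonal.mem_antidiagonal, mem_product] at hkl ⊢
    obtain ⟨n, hn, rfl⟩ := hkl
    omega
  · intro i _ j _ hij
    simp only [Function.onFun]
    rw [Finset.disjoint_left]
    intro kl h1 h2
    rw [HasAntidiagonal.mem_antidiagonal] at h1 h2
    exact hij (h1.symm.trans h2)

theorem ln_C (a : ℤ) (M : ℕ) : ln (C a) M = |a| := by
  unfold ln
  rw [Finset.sum_eq_single 0]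
  · rw [coeff_C, if_pos rfl]
  · intro n _ hn
    rw [coeff_C, if_neg hn, abs_zero]
  · intro h; exact absurd (mem_range.2 (Nat.succ_pos M)) h

theorem ln_pow (φ : PowerSeries ℤ) (M : ℕ) (k : ℕ) : ln (φ ^ k) M ≤ ln φ M ^ k := by
  induction k with
  | zero =>
    rw [pow_zero, pow_zero]
    have := ln_C 1 M
    simp only [map_one, abs_one] at this
    rw [this]
  | succ k ih =>
    rw [pow_succ, pow_succ]
    exact (ln_mul _ _ _).trans (mul_le_mul_of_nonneg_right ih (ln_nonneg _ _))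

theorem ln_prod {σ : Type} (s : Finset σ) (φ : σ → PowerSeries ℤ) (M : ℕ) :
    ln (∏ i ∈ s, φ i) M ≤ ∏ i ∈ s, ln (φ i) M := by
  classical
  induction s using Finset.induction_on with
  | empty =>
    have := ln_C 1 M
    simp only [map_one, abs_one] at this
    simp [this]
  | insert a s ha ih =>
    rw [Finset.prod_insert ha, Finset.prod_insert ha]
    exact (ln_mul _ _ _).trans (mul_le_mul_of_nonneg_left ih (ln_nonneg _ _))

theorem ln_sum {ι : Type} (s : Finset ι) (φ : ι → PowerSeries ℤ) (M : ℕ) :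
    ln (∑ i ∈ s, φ i) M ≤ ∑ i ∈ s, ln (φ i) M := by
  classical
  induction s using Finset.induction_on with
  | empty => simp [ln]
  | insert a s ha ih =>
    rw [Finset.sum_insert ha, Finset.sum_insert ha]
    exact (ln_add _ _ _).trans (by linarith)

end Pool.Agent.N324.Dig
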