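import Pool.Agent.N324.Dig.Core

/-!
The integrality argument.
-/

set_option autoImplicit false

namespace Pool.Agent.N324.Dig

open Finset PowerSeries

/-- the coefficients as real numbers -/
noncomputable def cf (φ : PowerSeries ℤ) (n : ℕ) : ℝ := ((coeff n φ : ℤ) : ℝ)

theorem tm_eq (φ : PowerSeries ℤ) (r : ℝ) (n : ℕ) : tm φ r n = cf φ n * r ^ n := rfl

theorem geom_le (j : ℕ) : ∑ n ∈ range j, (1 / 2 : ℝ) ^ (j - n) ≤ 1 := by
  induction j with
  | zero => simp
  | succ j ih =>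
    rw [Finset.sum_range_succ]
    have h1 : ∑ n ∈ range j, (1 / 2 : ℝ) ^ (j + 1 - n) = 1 / 2 * ∑ n ∈ range j, (1 / 2 : ℝ) ^ (j - n) := by
      rw [Finset.mul_sum]
      refine Finset.sum_congr rfl fun n hn => ?_
      rw [show j + 1 - n = (j - n) + 1 by have := mem_range.1 hn; omega, pow_succ]
      ring
    rw [h1]
    have h2 : j + 1 - j = 1 := by omega
    rw [h2]
    linarith

theorem geom_le' (j N : ℕ) :
    ∑ n ∈ range N, (if n < j then (1 / 2 : ℝ) ^ (j - n) else 0) ≤ 1 := by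
  rw [← Finset.sum_filter]
  refine le_trans (Finset.sum_le_sum_of_subset_of_nonneg ?_ fun _ _ _ => by positivity) (geom_le j)
  intro n hn
  rw [mem_filter] at hn
  exact mem_range.2 hn.2

theorem Sm.mono {φ : PowerSeries ℤ} {r s : ℝ} (hs : 0 ≤ s) (hsr : s ≤ r) (h : Sm φ r) : Sm φ s := by
  unfold Sm at *
  refine Summable.of_nonneg_of_le (fun n => norm_nonneg _) (fun n => ?_) h
  unfold tm
  rw [norm_mul, norm_mul, norm_pow, norm_pow]
  refine mul_le_mul_of_nonneg_left ?_ (norm_nonneg _)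
  refine pow_le_pow_left₀ (norm_nonneg _) ?_ n
  rw [Real.norm_of_nonneg hs, Real.norm_of_nonneg (hs.trans hsr)]
  exact hsr

/-- the total mass at `3/4` -/
noncomputable def mass (φ : PowerSeries ℤ) : ℝ := ∑' n, ‖tm φ (3 / 4) n‖

theorem mass_nonneg (φ : PowerSeries ℤ) : 0 ≤ mass φ := tsum_nonneg fun _ => norm_nonneg _

theorem mass_add {φ ψ : PowerSeries ℤ} (h1 : Sm φ (3 / 4)) (h2 : Sm ψ (3 / 4)) :
    mass (φ + ψ) ≤ mass φ + mass ψ := by
  unfold mass
  rw [← Summable.tsum_add h1 h2]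
  refine Summable.tsum_le_tsum (fun n => ?_) (h1.add h2) (Summable.add h1 h2)
  rw [tm_add]
  exact norm_add_le _ _

theorem mass_mul {φ ψ : PowerSeries ℤ} (h1 : Sm φ (3 / 4)) (h2 : Sm ψ (3 / 4)) :
    mass (φ * ψ) ≤ mass φ * mass ψ := by
  unfold mass
  have h1' : Summable (fun n => ‖‖tm φ (3 / 4) n‖‖) := by simpa [Sm] using h1
  have h2' : Summable (fun n => ‖‖tm ψ (3 / 4) n‖‖) := by simpa [Sm] using h2
  rw [tsum_mul_tsum_eq_tsum_sum_antidiagonal_of_summable_norm h1' h2']
  refine Summable.tsum_le_tsum (fun n => ?_) (h1.mul h2)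
    (summable_norm_sum_mul_antidiagonal_of_summable_norm h1' h2').of_norm
  rw [tm_mul]
  refine (norm_sum_le _ _).trans (Finset.sum_le_sum fun kl _ => ?_)
  rw [norm_mul]

theorem mass_C (a : ℤ) : mass (C a) = |(a : ℝ)| := by
  unfold mass
  rw [tsum_eq_single 0 (fun n hn => by rw [tm_C, if_neg hn, norm_zero]), tm_C, if_pos rfl,
    Real.norm_eq_abs]

theorem Sm_one (r : ℝ) : Sm 1 r := by
  have := Sm_C 1 r
  simpa using this

theorem Sm.pow {φ : PowerSeries ℤ} {r : ℝ} (h : Sm φ r) (k : ℕ) : Sm (φ ^ k) r := by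
  induction k with
  | zero => rw [pow_zero]; exact Sm_one r
  | succ k ih => rw [pow_succ]; exact ih.mul h

theorem mass_pow {φ : PowerSeries ℤ} (h : Sm φ (3 / 4)) (k : ℕ) : mass (φ ^ k) ≤ mass φ ^ k := by
  induction k with
  | zero =>
    rw [pow_zero, pow_zero]
    have := mass_C 1
    simp only [map_one, Int.cast_one, abs_one] at this
    rw [this]
  | succ k ih =>
    rw [pow_succ, pow_succ]
    exact (mass_mul (h.pow k) h).trans (mul_le_mul_of_nonneg_right ih (mass_nonneg _))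

theorem Sm_prod {σ : Type} (s : Finset σ) (φ : σ → PowerSeries ℤ) {r : ℝ} (h : ∀ i, Sm (φ i) r) :
    Sm (∏ i ∈ s, φ i) r := by
  classical
  induction s using Finset.induction_on with
  | empty => rw [Finset.prod_empty]; exact Sm_one r
  | insert a s ha ih => rw [Finset.prod_insert ha]; exact (h a).mul ih

theorem mass_prod {σ : Type} (s : Finset σ) (φ : σ → PowerSeries ℤ) (h : ∀ i, Sm (φ i) (3 / 4)) :
    mass (∏ i ∈ s, φ i) ≤ ∏ i ∈ s, mass (φ i) := by
  classical
  induction s using Finset.induction_on with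
  | empty =>
    have := mass_C 1
    simp only [map_one, Int.cast_one, abs_one] at this
    simp [this]
  | insert a s ha ih =>
    rw [Finset.prod_insert ha, Finset.prod_insert ha]
    exact (mass_mul (h a) (Sm_prod s φ h)).trans
      (mul_le_mul_of_nonneg_left ih (mass_nonneg _))

theorem Sm_sum {ι : Type} (s : Finset ι) (φ : ι → PowerSeries ℤ) {r : ℝ} (h : ∀ i, Sm (φ i) r) :
    Sm (∑ i ∈ s, φ i) r := by
  classical
  induction s using Finset.induction_on with
  | empty =>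
    rw [Finset.sum_empty]
    have := Sm_C 0 r
    simpa using this
  | insert a s ha ih => rw [Finset.sum_insert ha]; exact (h a).add ih

theorem mass_sum {ι : Type} (s : Finset ι) (φ : ι → PowerSeries ℤ) (h : ∀ i, Sm (φ i) (3 / 4)) :
    mass (∑ i ∈ s, φ i) ≤ ∑ i ∈ s, mass (φ i) := by
  classical
  induction s using Finset.induction_on with
  | empty =>
    have := mass_C 0
    simp only [map_zero, Int.cast_zero, abs_zero] at this
    simp [this]
  | insert a s ha ih =>
    rw [Finset.sum_insert ha, Finset.sum_insert ha]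
    exact (mass_add (h a) (Sm_sum s φ h)).trans (by linarith)

theorem mass_bdd {f : ℕ → ℤ} {B : ℝ} (hf : ∀ k, |(f k : ℝ)| ≤ B) (hs : Sm (PowerSeries.mk f) (3 / 4)) :
    mass (PowerSeries.mk f) ≤ 4 * B := by
  unfold mass
  have h1 : ∑' n : ℕ, B * (3 / 4 : ℝ) ^ n = 4 * B := by
    rw [tsum_mul_left, tsum_geometric_of_lt_one (by norm_num) (by norm_num)]
    norm_num
    ring
  rw [← h1]
  refine Summable.tsum_le_tsum (fun n => ?_) hs
    ((summable_geometric_of_lt_one (by norm_num) (by norm_num)).mul_left B)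
  unfold tm
  rw [PowerSeries.coeff_mk, norm_mul, norm_pow, Real.norm_of_nonneg (by norm_num : (0 : ℝ) ≤ 3 / 4),
    Real.norm_eq_abs]
  exact mul_le_mul_of_nonneg_right (hf n) (by positivity)

/-- the integrality argument -/
theorem int_arg {b : ℕ} (hb : 2 ≤ b) {G : PowerSeries ℤ} (hG : Sm G (3 / 4))
    (h0 : ev G (1 / b) = 0) {m : ℤ} (hm : ∀ j, 1 ≤ j → m ∣ coeff j G)
    (hm0 : ∀ n : ℕ, ¬ m ∣ (b : ℤ) ^ n * coeff 0 G) (N : ℕ) :
    (N : ℝ) ≤ ∑ j ∈ range (2 * N + 1), (if 1 ≤ j then |cf G j| else 0) + mass G := by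
  have hb0 : (0 : ℝ) < b := by positivity
  have hb2 : (2 : ℝ) ≤ b := by exact_mod_cast hb
  have hr0 : (0 : ℝ) ≤ 1 / b := by positivity
  have hr1 : (1 / b : ℝ) ≤ 1 / 2 := by
    rw [div_le_div_iff₀ hb0 (by norm_num)]; linarith
  have hGb : Sm G (1 / b) := hG.mono hr0 (hr1.trans (by norm_num))
  -- the integers h_n
  set h : ℕ → ℤ := fun n => ∑ j ∈ range (n + 1), (b : ℤ) ^ (n - j) * coeff j G with hh
  have hne : ∀ n, h n ≠ 0 := by
    intro n hn
    apply hm0 n
    have h1 : h n = (∑ j ∈ range n, (b : ℤ) ^ (n - (j + 1)) * coeff (j + 1) G) +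
        (b : ℤ) ^ n * coeff 0 G := by
      rw [hh]
      simp only
      rw [Finset.sum_range_succ']
      simp
    rw [hn] at h1
    have h2 : m ∣ ∑ j ∈ range n, (b : ℤ) ^ (n - (j + 1)) * coeff (j + 1) G :=
      Finset.dvd_sum fun j _ => Dvd.dvd.mul_left (hm (j + 1) (by omega)) _
    have h3 : (b : ℤ) ^ n * coeff 0 G =
        -(∑ j ∈ range n, (b : ℤ) ^ (n - (j + 1)) * coeff (j + 1) G) := by linarith
    rw [h3]
    exact h2.neg_right
  have hge : ∀ n, (1 : ℝ) ≤ |(h n : ℝ)| := by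
    intro n
    have := Int.one_le_abs (hne n)
    exact_mod_cast this
  -- the tail formula
  have htail : ∀ n : ℕ, (h n : ℝ) = -∑' k, (b : ℝ) ^ n * tm G (1 / b) (k + (n + 1)) := by
    intro n
    have h1 := hGb.of_norm.sum_add_tsum_nat_add (n + 1)
    have h2 : ∑' k, tm G (1 / b) k = 0 := h0
    rw [h2] at h1
    have h3 : (h n : ℝ) = (b : ℝ) ^ n * ∑ j ∈ range (n + 1), tm G (1 / b) j := by
      rw [Finset.mul_sum, hh]
      push_cast
      refine Finset.sum_congr rfl fun j hj => ?_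
      unfold tm
      have hjn : j ≤ n := by have := mem_range.1 hj; omega
      have h4 : (b : ℝ) ^ n = (b : ℝ) ^ (n - j) * (b : ℝ) ^ j := by
        rw [← pow_add]; congr 1; omega
      rw [h4, one_div, inv_pow]
      field_simp
    rw [h3, tsum_mul_left]
    have h5 : ∑ j ∈ range (n + 1), tm G (1 / b) j = -∑' k, tm G (1 / b) (k + (n + 1)) := by linarith
    rw [h5]
    ring
  -- bound for one n
  have hone : ∀ n ∈ range N, (1 : ℝ) ≤
      ∑ j ∈ range (2 * N + 1), (if n < j then |cf G j| * (1 / 2 : ℝ) ^ (j - n) else 0) +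
        mass G * (1 / 2 : ℝ) ^ (N - n) := by
    intro n hn
    have hnN : n < N := mem_range.1 hn
    have hs1 : Summable (fun k => ‖(b : ℝ) ^ n * tm G (1 / b) (k + (n + 1))‖) := by
      have h1 : Summable (fun k => ‖tm G (1 / b) (k + (n + 1))‖) :=
        (summable_nat_add_iff (n + 1)).2 hGb
      refine (h1.mul_left ((b : ℝ) ^ n)).congr fun k => ?_
      rw [norm_mul, Real.norm_of_nonneg (by positivity : (0 : ℝ) ≤ (b : ℝ) ^ n)]
    have h1 : |(h n : ℝ)| ≤ ∑' k, ‖(b : ℝ) ^ n * tm G (1 / b) (k + (n + 1))‖ := by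
      rw [htail n, abs_neg, ← Real.norm_eq_abs]
      exact norm_tsum_le_tsum_norm hs1
    have hterm : ∀ k, ‖(b : ℝ) ^ n * tm G (1 / b) (k + (n + 1))‖ ≤
        |cf G (k + (n + 1))| * (1 / 2 : ℝ) ^ (k + 1) := by
      intro k
      rw [tm_eq, norm_mul, norm_mul, norm_pow, norm_pow, Real.norm_of_nonneg hb0.le,
        Real.norm_of_nonneg hr0, Real.norm_eq_abs]
      have h2 : (b : ℝ) ^ n * (|cf G (k + (n + 1))| * (1 / (b : ℝ)) ^ (k + (n + 1))) =
          |cf G (k + (n + 1))| * (1 / (b : ℝ)) ^ (k + 1) := by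
        rw [show k + (n + 1) = n + (k + 1) by ring, pow_add]
        have : (b : ℝ) ^ n * (1 / (b : ℝ)) ^ n = 1 := by
          rw [← mul_pow]
          field_simp
          simp
        calc _ = |cf G (n + (k + 1))| * ((b : ℝ) ^ n * (1 / (b : ℝ)) ^ n) *
              (1 / (b : ℝ)) ^ (k + 1) := by ring
          _ = _ := by rw [this]; ring
      rw [h2]
      exact mul_le_mul_of_nonneg_left (pow_le_pow_left₀ hr0 hr1 _) (abs_nonneg _)
    have h3 := hs1.sum_add_tsum_nat_add (2 * N - n)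
    have h4 : ∑ k ∈ range (2 * N - n), ‖(b : ℝ) ^ n * tm G (1 / b) (k + (n + 1))‖ ≤
        ∑ j ∈ range (2 * N + 1), (if n < j then |cf G j| * (1 / 2 : ℝ) ^ (j - n) else 0) := by
      refine (Finset.sum_le_sum fun k _ => hterm k).trans ?_
      rw [← Finset.sum_filter]
      have h5 : ∑ k ∈ range (2 * N - n), |cf G (k + (n + 1))| * (1 / 2 : ℝ) ^ (k + 1) =
          ∑ j ∈ (range (2 * N - n)).image (fun k => k + (n + 1)),
            |cf G j| * (1 / 2 : ℝ) ^ (j - n) := by
        rw [Finset.sum_image (fun x _ y _ hxy => by simpa using hxy)]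
        refine Finset.sum_congr rfl fun k _ => ?_
        rw [show k + (n + 1) - n = k + 1 by omega]
      rw [h5]
      refine Finset.sum_le_sum_of_subset_of_nonneg ?_ fun _ _ _ => by positivity
      intro j hj
      rw [mem_image] at hj
      obtain ⟨k, hk, rfl⟩ := hj
      rw [mem_range] at hk
      rw [mem_filter, mem_range]
      omega
    have h6 : ∑' k, ‖(b : ℝ) ^ n * tm G (1 / b) (k + (2 * N - n) + (n + 1))‖ ≤
        mass G * (1 / 2 : ℝ) ^ (N - n) := by
      have h7 : ∀ k, ‖(b : ℝ) ^ n * tm G (1 / b) (k + (2 * N - n) + (n + 1))‖ ≤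
          ‖tm G (3 / 4) (k + (2 * N + 1))‖ * (1 / 2 : ℝ) ^ (N - n) := by
        intro k
        refine (hterm (k + (2 * N - n))).trans ?_
        rw [tm_eq, norm_mul, norm_pow, Real.norm_eq_abs,
          Real.norm_of_nonneg (by norm_num : (0 : ℝ) ≤ 3 / 4),
          show k + (2 * N - n) + (n + 1) = k + (2 * N + 1) by omega, mul_assoc]
        refine mul_le_mul_of_nonneg_left ?_ (abs_nonneg _)
        rw [show k + (2 * N - n) + 1 = ((k + 1) + N) + (N - n) by omega, pow_add (1 / 2 : ℝ) ((k + 1) + N)]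
        refine mul_le_mul_of_nonneg_right ?_ (by positivity)
        rw [show k + (2 * N + 1) = (k + 1) + 2 * N by ring, pow_add (1 / 2 : ℝ) (k + 1) N,
          pow_add (3 / 4 : ℝ) (k + 1) (2 * N), pow_mul (3 / 4 : ℝ) 2 N]
        refine mul_le_mul (pow_le_pow_left₀ (by norm_num) (by norm_num) _)
          (pow_le_pow_left₀ (by norm_num) (by norm_num) _) (by positivity) (by positivity)
      have hsum34 : Summable (fun k => ‖tm G (3 / 4) (k + (2 * N + 1))‖) :=
        (summable_nat_add_iff (2 * N + 1)).2 hG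
      have hs2 : Summable (fun k => ‖(b : ℝ) ^ n * tm G (1 / b) (k + (2 * N - n) + (n + 1))‖) :=
        (summable_nat_add_iff (2 * N - n)).2 hs1
      calc _ ≤ ∑' k, ‖tm G (3 / 4) (k + (2 * N + 1))‖ * (1 / 2 : ℝ) ^ (N - n) :=
            hs2.tsum_le_tsum h7 (hsum34.mul_right _)
        _ = (∑' k, ‖tm G (3 / 4) (k + (2 * N + 1))‖) * (1 / 2 : ℝ) ^ (N - n) := tsum_mul_right
        _ ≤ _ := by
          refine mul_le_mul_of_nonneg_right ?_ (by positivity)
          unfold mass
          have h8 := hG.sum_add_tsum_nat_add (2 * N + 1)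
          have h9 : 0 ≤ ∑ i ∈ range (2 * N + 1), ‖tm G (3 / 4) i‖ :=
            Finset.sum_nonneg fun _ _ => norm_nonneg _
          linarith
    have h10 := hge n
    linarith
  have hsum := Finset.sum_le_sum hone
  rw [Finset.sum_const, card_range, nsmul_eq_mul, mul_one, Finset.sum_add_distrib,
    ← Finset.mul_sum, Finset.sum_comm] at hsum
  have h1 : mass G * ∑ n ∈ range N, (1 / 2 : ℝ) ^ (N - n) ≤ mass G * 1 :=
    mul_le_mul_of_nonneg_left (geom_le N) (mass_nonneg G)
  have h2 : ∑ j ∈ range (2 * N + 1), ∑ n ∈ range N,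
      (if n < j then |cf G j| * (1 / 2 : ℝ) ^ (j - n) else 0) ≤
      ∑ j ∈ range (2 * N + 1), (if 1 ≤ j then |cf G j| else 0) := by
    refine Finset.sum_le_sum fun j _ => ?_
    split_ifs with hj
    · have h3 : ∑ n ∈ range N, (if n < j then |cf G j| * (1 / 2 : ℝ) ^ (j - n) else 0) =
          |cf G j| * ∑ n ∈ range N, (if n < j then (1 / 2 : ℝ) ^ (j - n) else 0) := by
        rw [Finset.mul_sum]
        refine Finset.sum_congr rfl fun n _ => ?_
        split_ifs <;> simp
      rw [h3]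
      calc _ ≤ |cf G j| * 1 := mul_le_mul_of_nonneg_left (geom_le' j N) (abs_nonneg _)
        _ = _ := mul_one _
    · refine le_of_eq (Finset.sum_eq_zero fun n _ => ?_)
      rw [if_neg (by omega)]
  linarith

end Pool.Agent.N324.Dig

namespace Pool.Agent.N324.Dig

open Finset PowerSeries

/-- the integrality argument, second form -/
theorem int_arg2 {b : ℕ} (hb : 2 ≤ b) {H : PowerSeries ℤ} {e : ℤ} (hH : Sm H (3 / 4))
    (h0 : ev H (1 / b) + e = 0) {m : ℤ} (hm : ∀ j, m ∣ coeff j H) (hmb : IsCoprime m (b : ℤ))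
    (he : ¬ m ∣ e) (N : ℕ) :
    (N : ℝ) ≤ ln H (2 * N) + mass H + |(e : ℝ)| := by
  have hb0 : (0 : ℝ) < b := by positivity
  have hb2 : (2 : ℝ) ≤ b := by exact_mod_cast hb
  have hr1 : (1 / b : ℝ) ≤ 3 / 4 := by
    rw [div_le_div_iff₀ hb0 (by norm_num)]; linarith
  have hHb : Sm H (1 / b) := hH.mono (by positivity) hr1
  have h1 := int_arg hb (G := H + C e) (hH.add (Sm_C e _))
    (by rw [ev_add hHb (Sm_C e _), ev_C]; exact h0) (m := m) (by
      intro j hj
      rw [map_add, coeff_C, if_neg (by omega), add_zero]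
      exact hm j) (by
      intro n hn
      rw [map_add, coeff_C, if_pos rfl, mul_add] at hn
      have h2 : m ∣ (b : ℤ) ^ n * e := (dvd_add_right ((hm 0).mul_left _)).1 hn
      exact he ((hmb.pow_right).dvd_of_dvd_mul_left h2)) N
  have h2 : mass (H + C e) ≤ mass H + |(e : ℝ)| := by
    have := mass_add hH (Sm_C e (3 / 4))
    rwa [mass_C] at this
  have h3 : ∑ j ∈ range (2 * N + 1), (if 1 ≤ j then |cf (H + C e) j| else 0) ≤ (ln H (2 * N) : ℝ) := by
    unfold ln
    push_cast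
    refine Finset.sum_le_sum fun j _ => ?_
    split_ifs with hj
    · unfold cf
      rw [map_add, coeff_C, if_neg (by omega), add_zero]
    · positivity
  linarith

/-- from even scales to all scales -/
theorem scale {g : ℕ → ℝ} (hg : Monotone g) (hg1 : ∀ n, 1 ≤ g n) {C : ℝ}
    (h : ∀ N : ℕ, (N : ℝ) ≤ C * g (2 * N)) (M : ℕ) :
    1 / (3 * max C 1) * (M : ℝ) ≤ g M := by
  have hC : (1 : ℝ) ≤ max C 1 := le_max_right _ _
  have hC' : C ≤ max C 1 := le_max_left _ _
  have hC0 : (0 : ℝ) < 3 * max C 1 := by positivity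
  have h3 : ((M / 2 : ℕ) : ℝ) ≤ max C 1 * g M := by
    refine (h (M / 2)).trans ?_
    have h4 : g (2 * (M / 2)) ≤ g M := hg (by omega)
    have h5 := hg1 (2 * (M / 2))
    calc C * g (2 * (M / 2)) ≤ max C 1 * g (2 * (M / 2)) :=
          mul_le_mul_of_nonneg_right hC' (by linarith)
      _ ≤ _ := mul_le_mul_of_nonneg_left h4 (by linarith)
  have h6 : (M : ℝ) ≤ 2 * ((M / 2 : ℕ) : ℝ) + 1 := by
    have : M ≤ 2 * (M / 2) + 1 := by omega
    exact_mod_cast this
  have h7 : 1 ≤ max C 1 * g M := by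
    have := hg1 M
    nlinarith
  rw [one_div, inv_mul_le_iff₀ hC0]
  linarith

end Pool.Agent.N324.Dig
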