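import Pool.Agent.N324.Dig.Core

/-!
Digits of real numbers.
-/

set_option autoImplicit false

namespace Pool.Agent.N324.Dig

open Finset Filter Topology

/-- the `k`-th digit of the base `b` expansion of `x` for `k ≥ 1`, and the integer part for `k = 0` -/
noncomputable def dg (b : ℕ) (x : ℝ) (k : ℕ) : ℤ :=
  if k = 0 then ⌊x⌋ else ⌊x * (b : ℝ) ^ k⌋ - b * ⌊x * (b : ℝ) ^ (k - 1)⌋

theorem dg_nonneg {b : ℕ} (hb : 1 ≤ b) (x : ℝ) {k : ℕ} (hk : k ≠ 0) : 0 ≤ dg b x k := by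
  unfold dg
  rw [if_neg hk]
  obtain ⟨j, rfl⟩ := Nat.exists_eq_succ_of_ne_zero hk
  rw [Nat.succ_sub_one, sub_nonneg, Int.le_floor]
  push_cast
  have h1 := Int.floor_le (x * (b : ℝ) ^ j)
  have hb0 : (0 : ℝ) ≤ b := by positivity
  calc (b : ℝ) * ⌊x * (b : ℝ) ^ j⌋ ≤ b * (x * (b : ℝ) ^ j) := mul_le_mul_of_nonneg_left h1 hb0
    _ = _ := by rw [Nat.succ_eq_add_one, pow_succ]; ring

theorem dg_lt {b : ℕ} (hb : 1 ≤ b) (x : ℝ) {k : ℕ} (hk : k ≠ 0) : dg b x k < b := by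
  unfold dg
  rw [if_neg hk]
  obtain ⟨j, rfl⟩ := Nat.exists_eq_succ_of_ne_zero hk
  rw [Nat.succ_sub_one]
  have h1 := Int.lt_floor_add_one (x * (b : ℝ) ^ j)
  have hb0 : (0 : ℝ) < b := by positivity
  have h2 : (⌊x * (b : ℝ) ^ j.succ⌋ : ℤ) < b * (⌊x * (b : ℝ) ^ j⌋ + 1) := by
    rw [Int.floor_lt]
    push_cast
    calc x * (b : ℝ) ^ j.succ = b * (x * (b : ℝ) ^ j) := by rw [Nat.succ_eq_add_one, pow_succ]; ring
      _ < _ := mul_lt_mul_of_pos_left h1 hb0
  linarith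

theorem dg_sum {b : ℕ} (hb : 1 ≤ b) (x : ℝ) (K : ℕ) :
    ∑ k ∈ range (K + 1), (dg b x k : ℝ) * (1 / (b : ℝ)) ^ k = ⌊x * (b : ℝ) ^ K⌋ * (1 / (b : ℝ)) ^ K := by
  have hb0 : (0 : ℝ) < b := by positivity
  induction K with
  | zero => simp [dg]
  | succ K ih =>
    rw [Finset.sum_range_succ, ih]
    unfold dg
    rw [if_neg (Nat.succ_ne_zero K), Nat.succ_sub_one]
    push_cast
    rw [pow_succ (1 / (b : ℝ))]
    field_simp
    ring

theorem dg_abs_le {b : ℕ} (hb : 1 ≤ b) (x : ℝ) (k : ℕ) : |(dg b x k : ℝ)| ≤ b + |(⌊x⌋ : ℝ)| := by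
  by_cases hk : k = 0
  · subst hk
    have : (0 : ℝ) ≤ b := by positivity
    simp only [dg, if_pos]
    linarith
  · have h1 := dg_nonneg hb x hk
    have h2 := dg_lt hb x hk
    have h3 : (0 : ℝ) ≤ dg b x k := by exact_mod_cast h1
    have h4 : (dg b x k : ℝ) < b := by exact_mod_cast h2
    rw [abs_of_nonneg h3]
    have := abs_nonneg (⌊x⌋ : ℝ)
    linarith

theorem summable_bdd {f : ℕ → ℤ} {B : ℝ} (hf : ∀ k, |(f k : ℝ)| ≤ B) {r : ℝ} (hr0 : 0 ≤ r)
    (hr : r < 1) : Sm (PowerSeries.mk f) r := by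
  unfold Sm
  refine Summable.of_nonneg_of_le (fun n => norm_nonneg _) (fun n => ?_)
    ((summable_geometric_of_lt_one hr0 hr).mul_left B)
  unfold tm
  rw [PowerSeries.coeff_mk, norm_mul, norm_pow, Real.norm_of_nonneg hr0, Real.norm_eq_abs]
  exact mul_le_mul_of_nonneg_right (hf n) (by positivity)

theorem ev_dg {b : ℕ} (hb : 2 ≤ b) (x : ℝ) : ev (PowerSeries.mk (dg b x)) (1 / b) = x := by
  have hb0 : (0 : ℝ) < b := by positivity
  have hb2 : (2 : ℝ) ≤ b := by exact_mod_cast hb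
  have hr : (1 / b : ℝ) < 1 := by rw [div_lt_one hb0]; linarith
  have hs : Sm (PowerSeries.mk (dg b x)) (1 / b) :=
    summable_bdd (dg_abs_le (by omega) x) (by positivity) hr
  have h1 := hs.of_norm.hasSum.tendsto_sum_nat
  have h2 : Tendsto (fun K : ℕ => ∑ k ∈ range (K + 1), tm (PowerSeries.mk (dg b x)) (1 / b) k) atTop
      (𝓝 (ev (PowerSeries.mk (dg b x)) (1 / b))) := (tendsto_add_atTop_iff_nat 1).2 h1
  have h3 : ∀ K : ℕ, ∑ k ∈ range (K + 1), tm (PowerSeries.mk (dg b x)) (1 / b) k =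
      ⌊x * (b : ℝ) ^ K⌋ * (1 / (b : ℝ)) ^ K := by
    intro K
    rw [← dg_sum (by omega) x K]
    refine Finset.sum_congr rfl fun k _ => ?_
    unfold tm
    rw [PowerSeries.coeff_mk]
  simp only [h3] at h2
  refine tendsto_nhds_unique h2 ?_
  rw [← tendsto_sub_nhds_zero_iff]
  refine squeeze_zero_norm (a := fun K : ℕ => (1 / (b : ℝ)) ^ K) (fun K => ?_)
    (tendsto_pow_atTop_nhds_zero_of_lt_one (by positivity) hr)
  have h4 := Int.floor_le (x * (b : ℝ) ^ K)
  have h5 := Int.lt_floor_add_one (x * (b : ℝ) ^ K)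
  have hp : (0 : ℝ) < (1 / (b : ℝ)) ^ K := by positivity
  have h6 : x = (x * (b : ℝ) ^ K) * (1 / (b : ℝ)) ^ K := by
    rw [mul_assoc, ← mul_pow]
    have : (b : ℝ) * (1 / b) = 1 := by field_simp
    rw [this]; simp
  have h7 : (⌊x * (b : ℝ) ^ K⌋ : ℝ) * (1 / (b : ℝ)) ^ K - x =
      ((⌊x * (b : ℝ) ^ K⌋ : ℝ) - x * (b : ℝ) ^ K) * (1 / (b : ℝ)) ^ K := by
    rw [sub_mul, ← h6]
  rw [h7, norm_mul, Real.norm_of_nonneg hp.le, Real.norm_eq_abs]
  have h8 : |(⌊x * (b : ℝ) ^ K⌋ : ℝ) - x * (b : ℝ) ^ K| ≤ 1 := by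
    rw [abs_le]; constructor <;> linarith
  calc _ ≤ 1 * (1 / (b : ℝ)) ^ K := mul_le_mul_of_nonneg_right h8 hp.le
    _ = _ := one_mul _

/-- the number of places `1 ≤ k ≤ N` at which the base `b` expansions of `x` and `y` differ -/
noncomputable def dist (b : ℕ) (x y : ℝ) (N : ℕ) : ℕ :=
  ((Finset.Icc 1 N).filter (fun k => dg b x k ≠ dg b y k)).card

theorem dist_mono (b : ℕ) (x y : ℝ) {M N : ℕ} (h : M ≤ N) : dist b x y M ≤ dist b x y N := by
  unfold dist
  refine Finset.card_le_card (Finset.filter_subset_filter _ (Finset.Icc_subset_Icc_right h))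

/-- the difference of two digit sequences -/
noncomputable def df (b : ℕ) (x y : ℝ) (k : ℕ) : ℤ := dg b x k - dg b y k

theorem df_abs_le {b : ℕ} (hb : 1 ≤ b) (x y : ℝ) (k : ℕ) :
    |(df b x y k : ℝ)| ≤ b + |x - y| + 1 := by
  by_cases hk : k = 0
  · subst hk
    have h1 : (df b x y 0 : ℝ) = (⌊x⌋ : ℝ) - ⌊y⌋ := by simp [df, dg]
    rw [h1]
    have h2 := Int.floor_le x
    have h3 := Int.lt_floor_add_one x
    have h4 := Int.floor_le y
    have h5 := Int.lt_floor_add_one y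
    have h6 : (0 : ℝ) ≤ b := by positivity
    have h7 := le_abs_self (x - y)
    have h8 := neg_abs_le (x - y)
    rw [abs_le]
    constructor <;> linarith
  · have h1 := dg_nonneg hb x hk
    have h2 := dg_lt hb x hk
    have h3 := dg_nonneg hb y hk
    have h4 := dg_lt hb y hk
    have h5 : |df b x y k| ≤ b := by
      unfold df
      rw [abs_le]
      constructor <;> linarith
    have h6 : |(df b x y k : ℝ)| ≤ b := by exact_mod_cast h5
    have := abs_nonneg (x - y)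
    linarith

theorem ev_df {b : ℕ} (hb : 2 ≤ b) (x y : ℝ) : ev (PowerSeries.mk (df b x y)) (1 / b) = x - y := by
  have hb0 : (0 : ℝ) < b := by positivity
  have hb2 : (2 : ℝ) ≤ b := by exact_mod_cast hb
  have hr : (1 / b : ℝ) < 1 := by rw [div_lt_one hb0]; linarith
  have hsx : Sm (PowerSeries.mk (dg b x)) (1 / b) :=
    summable_bdd (dg_abs_le (by omega) x) (by positivity) hr
  have hsy : Sm (PowerSeries.mk (dg b y)) (1 / b) :=
    summable_bdd (dg_abs_le (by omega) y) (by positivity) hr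
  have h : ∀ n, tm (PowerSeries.mk (df b x y)) (1 / b) n =
      tm (PowerSeries.mk (dg b x)) (1 / b) n - tm (PowerSeries.mk (dg b y)) (1 / b) n := by
    intro n
    unfold tm df
    simp only [PowerSeries.coeff_mk]
    push_cast
    ring
  calc ev (PowerSeries.mk (df b x y)) (1 / b) =
      ev (PowerSeries.mk (dg b x)) (1 / b) - ev (PowerSeries.mk (dg b y)) (1 / b) := by
        unfold ev
        simp only [h]
        exact hsx.of_norm.tsum_sub hsy.of_norm
    _ = _ := by rw [ev_dg hb, ev_dg hb]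

theorem ln_df {b : ℕ} (hb : 1 ≤ b) (x y : ℝ) (M : ℕ) :
    (ln (PowerSeries.mk (df b x y)) M : ℝ) ≤ (b + |x - y| + 1) * (dist b x y M + 1) := by
  unfold ln
  push_cast
  simp only [PowerSeries.coeff_mk]
  set B : ℝ := b + |x - y| + 1 with hB
  have hB0 : 0 ≤ B := by positivity
  rw [Finset.sum_range_succ']
  have h1 : ∑ k ∈ range M, |(df b x y (k + 1) : ℝ)| ≤ B * dist b x y M := by
    have h2 : ∑ k ∈ range M, |(df b x y (k + 1) : ℝ)| = ∑ k ∈ Finset.Icc 1 M, |(df b x y k : ℝ)| := by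
      rw [Finset.range_eq_Ico, Finset.sum_Ico_add' (fun k => |(df b x y k : ℝ)|) 0 M 1]
      rfl
    rw [h2, ← Finset.sum_filter_add_sum_filter_not (Finset.Icc 1 M) (fun k => dg b x k ≠ dg b y k)]
    have h3 : ∑ k ∈ (Finset.Icc 1 M).filter (fun k => ¬ (dg b x k ≠ dg b y k)),
        |(df b x y k : ℝ)| = 0 := by
      refine Finset.sum_eq_zero fun k hk => ?_
      rw [Finset.mem_filter, not_not] at hk
      unfold df
      rw [hk.2]
      simp
    rw [h3, add_zero]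
    calc _ ≤ ∑ k ∈ (Finset.Icc 1 M).filter (fun k => dg b x k ≠ dg b y k), B :=
          Finset.sum_le_sum fun k _ => df_abs_le hb x y k
      _ = B * dist b x y M := by
          rw [Finset.sum_const, nsmul_eq_mul, mul_comm]; rfl
  have h4 := df_abs_le hb x y 0
  rw [← hB] at h4
  linarith

end Pool.Agent.N324.Dig
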