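import Pool.Agent.N324.Dig.Cor
import Pool.Agent.H394R2.Ones3

/-!
Statements for rational numbers, and square roots.
-/

set_option autoImplicit false

namespace Pool.Agent.N324.Dig

open Finset

/-- if no prime outside `b` divides `n` then `n` divides a power of `b` -/
theorem dvd_pow_self_of {n b : ℕ} (hn : n ≠ 0) (h : ∀ p : ℕ, p.Prime → p ∣ n → p ∣ b) :
    n ∣ b ^ n := by
  by_cases hb : b = 0
  · subst hb
    rw [zero_pow hn]
    exact dvd_zero n
  have hbn : b ^ n ≠ 0 := pow_ne_zero n hb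
  rw [← Nat.factorization_le_iff_dvd hn hbn]
  intro p
  rw [Nat.factorization_pow]
  simp only [Finsupp.smul_apply, smul_eq_mul]
  by_cases hp : p.Prime
  · by_cases hpn : p ∣ n
    · have h1 : 1 ≤ b.factorization p := (hp.dvd_iff_one_le_factorization hb).1 (h p hp hpn)
      have h2 : n.factorization p < n := Nat.factorization_lt p hn
      nlinarith
    · rw [Nat.factorization_eq_zero_of_not_dvd hpn]
      exact Nat.zero_le _
  · rw [Nat.factorization_eq_zero_of_not_prime n hp]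
    exact Nat.zero_le _

/-- a rational number whose expansion in base `b` does not end -/
theorem exists_prime_of_nonterm {b : ℕ} (ρ : ℚ) (h : ∀ (k : ℕ) (n : ℤ), ρ * (b : ℚ) ^ k ≠ n) :
    ∃ p : ℕ, p.Prime ∧ ¬ p ∣ b ∧ p ∣ ρ.den := by
  by_contra hcon
  push Not at hcon
  have h1 : ρ.den ∣ b ^ ρ.den := dvd_pow_self_of ρ.den_nz fun p hp hpd => by
    by_contra hpb
    exact hcon p hp hpb hpd
  obtain ⟨c, hc⟩ := h1
  apply h ρ.den (ρ.num * c)
  have h2 : (ρ.den : ℚ) ≠ 0 := by exact_mod_cast ρ.den_nz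
  have h3 : ((b : ℚ) ^ ρ.den) = ρ.den * c := by exact_mod_cast hc
  rw [h3]
  push_cast
  rw [← mul_assoc, Rat.mul_den_eq_num]

theorem not_dvd_num {p : ℕ} (hp : p.Prime) {ρ : ℚ} (h : p ∣ ρ.den) : ¬ (p : ℤ) ∣ ρ.num := by
  intro h1
  have h2 : p ∣ ρ.num.natAbs := Int.natCast_dvd.1 h1
  have h3 := Nat.dvd_gcd h2 h
  rw [ρ.reduced] at h3
  exact hp.one_lt.ne' (Nat.dvd_one.1 h3)

theorem cast_eq (ρ : ℚ) : (ρ : ℝ) = ((ρ.num : ℤ) : ℝ) / ((ρ.den : ℤ) : ℝ) := by
  have := Rat.cast_def (K := ℝ) ρ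
  rw [this]
  push_cast
  rfl

theorem alg_int_rat {b : ℕ} (hb : 2 ≤ b) {P : Polynomial ℤ}
    (hP : P.Monic) {ξ : ℝ} (hξ : Polynomial.aeval ξ P = 0) (ρ : ℚ)
    (h : ∀ (k : ℕ) (n : ℤ), ρ * (b : ℚ) ^ k ≠ n) :
    ∃ c : ℝ, 0 < c ∧ ∀ z : ℝ, ∀ N : ℕ,
      c * (N : ℝ) ^ (1 / (P.natDegree : ℝ)) ≤ (dist b (z + ξ) (z + ρ) N : ℝ) + 1 := by
  obtain ⟨p, hp, hpb, hpd⟩ := exists_prime_of_nonterm ρ h
  rw [cast_eq ρ]
  exact alg_int hb hp hpb hP hξ (by exact_mod_cast ρ.den_nz) (by exact_mod_cast hpd)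
    (not_dvd_num hp hpd)

theorem prod_rat {b : ℕ} (hb : 2 ≤ b) {p : ℕ} (hp : p.Prime) (hpb : ¬ p ∣ b) {ρ τ ζ : ℚ}
    (h1 : p ∣ ρ.den) (h2 : p ∣ τ.den) (h3 : ¬ p ^ 2 ∣ ζ.den) (u v : ℝ) :
    ∃ c : ℝ, 0 < c ∧ ∀ z₁ z₂ z₃ : ℝ, ∀ N : ℕ,
      c * (N : ℝ) ≤ ((dist b (z₁ + u) (z₁ + ρ) N : ℝ) + 1) *
        ((dist b (z₂ + v) (z₂ + τ) N : ℝ) + 1) + ((dist b (z₃ + u * v) (z₃ + ζ) N : ℝ) + 1) := by
  rw [cast_eq ρ, cast_eq τ, cast_eq ζ]
  exact prod_case hb hp hpb (by exact_mod_cast ρ.den_nz) (by exact_mod_cast τ.den_nz)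
    (by exact_mod_cast ζ.den_nz) (by exact_mod_cast h1) (by exact_mod_cast h2)
    (not_dvd_num hp h1) (not_dvd_num hp h2) (by exact_mod_cast h3) u v

theorem pow_rat {b : ℕ} (hb : 2 ≤ b) {p : ℕ} (hp : p.Prime) (hpb : ¬ p ∣ b) {ρ τ : ℚ}
    (h1 : p ∣ ρ.den) {k : ℕ} (h2 : ¬ p ^ k ∣ τ.den) (u : ℝ) :
    ∃ c : ℝ, 0 < c ∧ ∀ z₁ z₂ : ℝ, ∀ N : ℕ,
      c * (N : ℝ) ≤ ((dist b (z₁ + u) (z₁ + ρ) N : ℝ) + 1) ^ k +
        ((dist b (z₂ + u ^ k) (z₂ + τ) N : ℝ) + 1) := by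
  rw [cast_eq ρ, cast_eq τ]
  exact pow_case hb hp hpb (by exact_mod_cast ρ.den_nz) (by exact_mod_cast τ.den_nz)
    (by exact_mod_cast h1) (not_dvd_num hp h1) (by exact_mod_cast h2) u

/-- square roots: all rational numbers -/
theorem sqrt_rat {b : ℕ} (hb : 2 ≤ b) {d : ℕ} (hd : ¬ IsSquare d) (ρ : ℚ) :
    ∃ c : ℝ, 0 < c ∧ ∃ N₀ : ℕ, ∀ N : ℕ, N₀ ≤ N →
      c * Real.sqrt N ≤ (dist b (Real.sqrt d) ρ N : ℝ) := by
  -- it suffices to have a bound with an additive constant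
  suffices H : ∃ c : ℝ, 0 < c ∧ ∃ C : ℝ, ∀ N : ℕ,
      c * Real.sqrt N ≤ (dist b (Real.sqrt d) ρ N : ℝ) + C by
    obtain ⟨c, hc, C, h⟩ := H
    refine ⟨c / 2, by positivity, ⌈(2 * |C| / c) ^ 2⌉₊, fun N hN => ?_⟩
    have h1 := h N
    have h2 : 2 * |C| / c ≤ Real.sqrt N := by
      refine Real.le_sqrt_of_sq_le ?_
      exact (Nat.le_ceil _).trans (by exact_mod_cast hN)
    rw [div_le_iff₀ hc] at h2
    have h3 := le_abs_self C
    linarith
  by_cases hterm : ∀ (k : ℕ) (n : ℤ), ρ * (b : ℚ) ^ k ≠ n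
  · have hmon : (Polynomial.X ^ 2 - Polynomial.C (d : ℤ) : Polynomial ℤ).Monic :=
      Polynomial.monic_X_pow_sub_C _ (by norm_num)
    have hroot : Polynomial.aeval (Real.sqrt d)
        (Polynomial.X ^ 2 - Polynomial.C (d : ℤ) : Polynomial ℤ) = 0 := by
      rw [map_sub, map_pow, Polynomial.aeval_X, Polynomial.aeval_C,
        Real.sq_sqrt (Nat.cast_nonneg d)]
      simp
    obtain ⟨c, hc, h⟩ := alg_int_rat hb hmon hroot ρ hterm
    refine ⟨c, hc, 1, fun N => ?_⟩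
    have h1 := h 0 N
    rw [Polynomial.natDegree_X_pow_sub_C, zero_add, zero_add] at h1
    rw [Real.sqrt_eq_rpow]
    exact_mod_cast h1
  · push Not at hterm
    obtain ⟨k₀, n, hk₀⟩ := hterm
    obtain ⟨C, hC⟩ := Pool.Agent.H394R2.Ones.digit_sum d b hd hb
    have hb1 : (1 : ℝ) ≤ (b : ℝ) - 1 := by
      have : (2 : ℝ) ≤ b := by exact_mod_cast hb
      linarith
    have hb0 : (0 : ℝ) < b := by positivity
    set κ : ℝ := 7 * Real.sqrt (((b : ℝ) - 1) * (Nat.gcd b 2 : ℕ) / 48) with hκ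
    have hκ0 : 0 < κ := by
      have h1 : 0 < Nat.gcd b 2 := Nat.gcd_pos_of_pos_right b (by norm_num)
      have h2 : (0 : ℝ) < (Nat.gcd b 2 : ℕ) := by exact_mod_cast h1
      rw [hκ]
      have h3 : 0 < ((b : ℝ) - 1) * (Nat.gcd b 2 : ℕ) / 48 := by positivity
      have := Real.sqrt_pos.2 h3
      positivity
    refine ⟨κ / b, by positivity, k₀ + |C|, fun N => ?_⟩
    have h1 := hC N
    -- digits as differences of floors
    have hdig : ∀ k : ℕ, ((⌊Real.sqrt d * (b : ℝ) ^ (k + 1)⌋₊ % b : ℕ) : ℤ) =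
        dg b (Real.sqrt d) (k + 1) := by
      intro k
      have h0 : 0 ≤ Real.sqrt d * (b : ℝ) ^ (k + 1) := by positivity
      have h2 : ((⌊Real.sqrt d * (b : ℝ) ^ (k + 1)⌋₊ : ℕ) : ℤ) = ⌊Real.sqrt d * (b : ℝ) ^ (k + 1)⌋ :=
        Int.natCast_floor_eq_floor h0
      have h3 := dg_nonneg (b := b) (by omega) (Real.sqrt d) (Nat.succ_ne_zero k)
      have h4 := dg_lt (b := b) (by omega) (Real.sqrt d) (Nat.succ_ne_zero k)
      rw [Nat.succ_eq_add_one] at h3 h4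
      push_cast
      rw [h2]
      have h5 : ⌊Real.sqrt d * (b : ℝ) ^ (k + 1)⌋ = dg b (Real.sqrt d) (k + 1) +
          b * ⌊Real.sqrt d * (b : ℝ) ^ k⌋ := by
        unfold dg
        rw [if_neg (Nat.succ_ne_zero k), Nat.add_sub_cancel]
        ring
      rw [h5, Int.add_mul_emod_self_left]
      exact Int.emod_eq_of_lt h3 h4
    have hzero : ∀ k : ℕ, k₀ < k → dg b (ρ : ℝ) k = 0 := by
      intro k hk
      have hint : ∀ j : ℕ, k₀ ≤ j → (ρ : ℝ) * (b : ℝ) ^ j = ((n * b ^ (j - k₀) : ℤ) : ℝ) := by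
        intro j hj
        have h2 : (ρ : ℝ) * (b : ℝ) ^ k₀ = n := by exact_mod_cast hk₀
        have h3 : (b : ℝ) ^ j = (b : ℝ) ^ k₀ * (b : ℝ) ^ (j - k₀) := by
          rw [← pow_add]; congr 1; omega
        rw [h3, ← mul_assoc, h2]
        push_cast
        ring
      unfold dg
      rw [if_neg (by omega), hint k (by omega), hint (k - 1) (by omega), Int.floor_intCast,
        Int.floor_intCast]
      have h3 : k - k₀ = (k - 1 - k₀) + 1 := by omega
      rw [h3, pow_succ]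
      ring
    have hsum : (∑ k ∈ Finset.range N, ((⌊Real.sqrt d * (b : ℝ) ^ (k + 1)⌋₊ % b : ℕ) : ℤ)) ≤
        b * (dist b (Real.sqrt d) ρ N + k₀) := by
      have h2 : ∀ k ∈ Finset.range N, ((⌊Real.sqrt d * (b : ℝ) ^ (k + 1)⌋₊ % b : ℕ) : ℤ) ≤
          (if dg b (Real.sqrt d) (k + 1) ≠ dg b (ρ : ℝ) (k + 1) then (b : ℤ) else 0) +
            (if k + 1 ≤ k₀ then (b : ℤ) else 0) := by
        intro k _
        rw [hdig k]
        have h3 := dg_nonneg (b := b) (by omega) (Real.sqrt d) (Nat.succ_ne_zero k)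
        have h4 := dg_lt (b := b) (by omega) (Real.sqrt d) (Nat.succ_ne_zero k)
        rw [Nat.succ_eq_add_one] at h3 h4
        by_cases h5 : k + 1 ≤ k₀
        · rw [if_pos h5]
          split_ifs <;> omega
        · rw [if_neg h5]
          by_cases h6 : dg b (Real.sqrt d) (k + 1) ≠ dg b (ρ : ℝ) (k + 1)
          · rw [if_pos h6]; omega
          · rw [if_neg h6]
            rw [not_not] at h6
            rw [h6, hzero (k + 1) (by omega)]
            simp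
      refine (Finset.sum_le_sum h2).trans ?_
      rw [Finset.sum_add_distrib, mul_add]
      refine add_le_add (le_of_eq ?_) ?_
      · rw [← Finset.sum_filter, Finset.sum_const, nsmul_eq_mul, mul_comm]
        congr 1
        unfold dist
        norm_cast
        refine Finset.card_bij (fun k _ => k + 1) (fun k hk => ?_) (fun _ _ _ _ h => by omega)
          fun k hk => ?_
        · rw [Finset.mem_filter, Finset.mem_range] at hk
          rw [Finset.mem_filter, Finset.mem_Icc]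
          exact ⟨⟨by omega, by omega⟩, hk.2⟩
        · rw [Finset.mem_filter, Finset.mem_Icc] at hk
          refine ⟨k - 1, ?_, by omega⟩
          rw [Finset.mem_filter, Finset.mem_range]
          rw [show k - 1 + 1 = k by omega]
          exact ⟨by omega, hk.2⟩
      · rw [← Finset.sum_filter, Finset.sum_const, nsmul_eq_mul, mul_comm]
        refine mul_le_mul_of_nonneg_left ?_ (by positivity)
        norm_cast
        have h7 : (Finset.range N).filter (fun k => k + 1 ≤ k₀) ⊆ Finset.range k₀ := by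
          intro k hk
          rw [Finset.mem_filter] at hk
          rw [Finset.mem_range]
          omega
        simpa using Finset.card_le_card h7
    have hsumR : ((∑ k ∈ Finset.range N, ⌊Real.sqrt d * (b : ℝ) ^ (k + 1)⌋₊ % b : ℕ) : ℝ) ≤
        b * (dist b (Real.sqrt d) ρ N + k₀) := by
      exact_mod_cast hsum
    have h8 : κ * Real.sqrt N ≤ b * (dist b (Real.sqrt d) ρ N + k₀) + |C| := by
      have := le_abs_self C
      linarith
    have h9 : κ / b * Real.sqrt N = (κ * Real.sqrt N) / b := by ring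
    rw [h9, div_le_iff₀ hb0]
    have h10 : |C| ≤ b * |C| := by
      have h11 : (1 : ℝ) ≤ b := by linarith
      nlinarith [abs_nonneg C]
    nlinarith

end Pool.Agent.N324.Dig
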