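import Pool.Agent.N324.Dig.Core2
import Pool.Agent.N324.Dig.Digits

/-!
The distance between the digits of `x` and `y` when the differences satisfy an algebraic relation.
-/

set_option autoImplicit false

namespace Pool.Agent.N324.Dig

open Finset

theorem one_le_dist (b : ℕ) (x y : ℝ) (N : ℕ) : (1 : ℝ) ≤ (dist b x y N : ℝ) + 1 := by
  have : (0 : ℝ) ≤ (dist b x y N : ℝ) := Nat.cast_nonneg _
  linarith

theorem dist_mono' (b : ℕ) (x y : ℝ) : Monotone (fun N => (dist b x y N : ℝ) + 1) := by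
  intro M N h
  have : (dist b x y M : ℝ) ≤ dist b x y N := by exact_mod_cast dist_mono b x y h
  simpa using this

theorem Sm_df {b : ℕ} (hb : 1 ≤ b) (x y : ℝ) : Sm (PowerSeries.mk (df b x y)) (3 / 4) :=
  summable_bdd (df_abs_le hb x y) (by norm_num) (by norm_num)

section
variable {σ : Type} [Fintype σ]

/-- the non-constant part -/
noncomputable def ncp [DecidableEq σ] (A : MvPolynomial σ ℤ) (F : σ → PowerSeries ℤ) :
    PowerSeries ℤ :=
  ∑ α ∈ A.support.erase 0, PowerSeries.C (A.coeff α) * ∏ i, F i ^ α i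

theorem decomp [DecidableEq σ] (A : MvPolynomial σ ℤ) (F : σ → PowerSeries ℤ) :
    MvPolynomial.aeval F A = ncp A F + PowerSeries.C (A.coeff 0) := by
  unfold ncp
  rw [MvPolynomial.aeval_def, MvPolynomial.eval₂_eq']
  by_cases h0 : (0 : σ →₀ ℕ) ∈ A.support
  · rw [← Finset.sum_erase_add _ _ h0]
    congr 1
    simp
  · rw [Finset.erase_eq_of_notMem h0]
    rw [MvPolynomial.notMem_support_iff] at h0
    rw [h0, map_zero, add_zero]
    rfl

theorem Sm_ncp [DecidableEq σ] (A : MvPolynomial σ ℤ) {F : σ → PowerSeries ℤ} {r : ℝ}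
    (hF : ∀ i, Sm (F i) r) : Sm (ncp A F) r :=
  Sm_sum _ _ fun _ => (Sm_C _ _).mul (Sm_prod _ _ fun i => (hF i).pow _)

theorem dvd_ncp [DecidableEq σ] (A : MvPolynomial σ ℤ) (F : σ → PowerSeries ℤ) {m : ℤ}
    (hA : ∀ α, α ≠ 0 → m ∣ A.coeff α) (j : ℕ) : m ∣ PowerSeries.coeff j (ncp A F) := by
  unfold ncp
  rw [map_sum]
  refine Finset.dvd_sum fun α hα => ?_
  rw [PowerSeries.coeff_C_mul]
  exact (hA α (Finset.mem_erase.1 hα).1).mul_right _

/-- the constant for the mass -/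
noncomputable def cst [DecidableEq σ] (A : MvPolynomial σ ℤ) (B : ℝ) : ℝ :=
  ∑ α ∈ A.support.erase 0, |((A.coeff α : ℤ) : ℝ)| * ∏ i : σ, B ^ α i

theorem cst_nonneg [DecidableEq σ] (A : MvPolynomial σ ℤ) {B : ℝ} (hB : 0 ≤ B) : 0 ≤ cst A B :=
  Finset.sum_nonneg fun _ _ => by positivity

theorem mass_ncp [DecidableEq σ] (A : MvPolynomial σ ℤ) {F : σ → PowerSeries ℤ} {B : ℝ}
    (hF : ∀ i, Sm (F i) (3 / 4)) (hB : ∀ i, mass (F i) ≤ B) : mass (ncp A F) ≤ cst A B := by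
  unfold ncp cst
  refine (mass_sum _ _ fun α => (Sm_C _ _).mul (Sm_prod _ _ fun i => (hF i).pow _)).trans ?_
  refine Finset.sum_le_sum fun α _ => ?_
  refine (mass_mul (Sm_C _ _) (Sm_prod _ _ fun i => (hF i).pow _)).trans ?_
  rw [mass_C]
  refine mul_le_mul_of_nonneg_left ?_ (abs_nonneg _)
  refine (mass_prod _ _ fun i => (hF i).pow _).trans ?_
  refine Finset.prod_le_prod (fun i _ => mass_nonneg _) fun i _ => ?_
  exact (mass_pow (hF i) _).trans (pow_le_pow_left₀ (mass_nonneg _) (hB i) _)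

theorem ln_ncp [DecidableEq σ] (A : MvPolynomial σ ℤ) {F : σ → PowerSeries ℤ} {M : ℕ} {B : ℝ}
    (hB0 : 0 ≤ B) {d : σ → ℝ} (hd : ∀ i, 0 ≤ d i) (hF : ∀ i, (ln (F i) M : ℝ) ≤ B * d i) :
    (ln (ncp A F) M : ℝ) ≤ cst A B * ∑ α ∈ A.support.erase 0, ∏ i, d i ^ α i := by
  have h2 : ln (ncp A F) M ≤ ∑ α ∈ A.support.erase 0, |A.coeff α| * ∏ i, ln (F i) M ^ α i := by
    unfold ncp
    refine (ln_sum _ _ _).trans (Finset.sum_le_sum fun α _ => ?_)
    refine (ln_mul _ _ _).trans ?_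
    rw [ln_C]
    refine mul_le_mul_of_nonneg_left ?_ (abs_nonneg _)
    refine (ln_prod _ _ _).trans ?_
    exact Finset.prod_le_prod (fun i _ => ln_nonneg _ _) fun i _ => ln_pow _ _ _
  have h3 : (ln (ncp A F) M : ℝ) ≤
      ∑ α ∈ A.support.erase 0, |((A.coeff α : ℤ) : ℝ)| * ∏ i, (ln (F i) M : ℝ) ^ α i := by
    exact_mod_cast h2
  have hln0 : ∀ i, (0 : ℝ) ≤ (ln (F i) M : ℝ) := fun i => by exact_mod_cast ln_nonneg _ _
  refine h3.trans ?_
  unfold cst
  rw [Finset.sum_mul]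
  refine Finset.sum_le_sum fun α hα => ?_
  rw [mul_assoc]
  refine mul_le_mul_of_nonneg_left ?_ (abs_nonneg _)
  have h5 : ∏ i, (ln (F i) M : ℝ) ^ α i ≤ ∏ i, (B * d i) ^ α i :=
    Finset.prod_le_prod (fun i _ => pow_nonneg (hln0 i) _) fun i _ =>
      pow_le_pow_left₀ (hln0 i) (hF i) _
  refine h5.trans ?_
  have h4 : ∏ i, (B * d i) ^ α i = (∏ i, B ^ α i) * ∏ i, d i ^ α i := by
    rw [← Finset.prod_mul_distrib]
    refine Finset.prod_congr rfl fun i _ => ?_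
    rw [mul_pow]
  rw [h4]
  refine mul_le_mul_of_nonneg_left ?_ (Finset.prod_nonneg fun i _ => pow_nonneg hB0 _)
  exact Finset.single_le_sum (f := fun α : σ →₀ ℕ => ∏ i, d i ^ α i)
    (fun β _ => Finset.prod_nonneg fun i _ => pow_nonneg (hd i) _) hα

/-- the sum on the right side -/
noncomputable def rhs [DecidableEq σ] (b : ℕ) (A : MvPolynomial σ ℤ) (x y : σ → ℝ) (N : ℕ) : ℝ :=
  ∑ α ∈ A.support.erase 0, ∏ i, ((dist b (x i) (y i) N : ℝ) + 1) ^ α i

theorem rhs_mono [DecidableEq σ] (b : ℕ) (A : MvPolynomial σ ℤ) (x y : σ → ℝ) :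
    Monotone (rhs b A x y) := by
  intro M N hMN
  unfold rhs
  refine Finset.sum_le_sum fun α _ => Finset.prod_le_prod (fun i _ => by positivity) fun i _ => ?_
  exact pow_le_pow_left₀ (by positivity) (dist_mono' b (x i) (y i) hMN) _

theorem one_le_rhs [DecidableEq σ] (b : ℕ) (A : MvPolynomial σ ℤ) (x y : σ → ℝ)
    (hne : (A.support.erase 0).Nonempty) (N : ℕ) : 1 ≤ rhs b A x y N := by
  obtain ⟨α, hα⟩ := hne
  have h1 : (1 : ℝ) ≤ ∏ i, ((dist b (x i) (y i) N : ℝ) + 1) ^ α i := by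
    refine Finset.prod_induction _ (fun t : ℝ => 1 ≤ t) (fun a b ha hb => ?_) le_rfl fun i _ => ?_
    · nlinarith
    · exact one_le_pow₀ (one_le_dist _ _ _ _)
  refine h1.trans ?_
  unfold rhs
  exact Finset.single_le_sum (f := fun α : σ →₀ ℕ => ∏ i, ((dist b (x i) (y i) N : ℝ) + 1) ^ α i)
    (fun β _ => by positivity) hα

/-- The general theorem. -/
theorem general [DecidableEq σ] {b : ℕ} (hb : 2 ≤ b) {m : ℤ} (hmb : IsCoprime m (b : ℤ))
    (A : MvPolynomial σ ℤ) (hA0 : ¬ m ∣ A.coeff 0) (hA : ∀ α, α ≠ 0 → m ∣ A.coeff α) (K : ℝ) :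
    ∃ c : ℝ, 0 < c ∧ ∀ x y : σ → ℝ, (∀ i, |x i - y i| ≤ K) →
      MvPolynomial.aeval (fun i => x i - y i) A = 0 → ∀ N : ℕ, c * N ≤ rhs b A x y N := by
  obtain ⟨B, hB⟩ : ∃ B : ℝ, B = max (b + K + 1) 1 := ⟨_, rfl⟩
  have hB1 : 1 ≤ B := by rw [hB]; exact le_max_right _ _
  obtain ⟨e, he⟩ : ∃ e : ℤ, e = A.coeff 0 := ⟨_, rfl⟩
  obtain ⟨Ct, hC⟩ : ∃ Ct : ℝ, Ct = cst A B + cst A (4 * B) + |(e : ℝ)| := ⟨_, rfl⟩
  refine ⟨1 / (3 * max Ct 1), by positivity, ?_⟩
  intro x y hxy hrel M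
  obtain ⟨F, hF⟩ : ∃ F : σ → PowerSeries ℤ, F = fun i => PowerSeries.mk (df b (x i) (y i)) :=
    ⟨_, rfl⟩
  have hb1 : 1 ≤ b := by omega
  have hSmF : ∀ i, Sm (F i) (3 / 4) := fun i => by rw [hF]; exact Sm_df hb1 _ _
  have hBi : ∀ i, (b : ℝ) + |x i - y i| + 1 ≤ B := fun i =>
    le_trans (by have := hxy i; linarith) (hB ▸ le_max_left _ _)
  have hb0 : (0 : ℝ) < b := by positivity
  have hb2 : (2 : ℝ) ≤ b := by exact_mod_cast hb
  have hr1 : (1 / b : ℝ) ≤ 3 / 4 := by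
    rw [div_le_div_iff₀ hb0 (by norm_num)]; linarith
  have hSmFb : ∀ i, Sm (F i) (1 / b) := fun i => (hSmF i).mono (by positivity) hr1
  have hev : ev (ncp A F) (1 / b) + e = 0 := by
    have h1 := (eval_poly F (1 / b) hSmFb A).2
    have h2 : (fun i => ev (F i) (1 / b)) = fun i => x i - y i := by
      funext i
      rw [hF]
      exact ev_df hb _ _
    rw [h2, hrel, decomp, ev_add (Sm_ncp A hSmFb) (Sm_C _ _), ev_C, ← he] at h1
    exact h1
  have hSne : (A.support.erase 0).Nonempty := by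
    rw [Finset.nonempty_iff_ne_empty]
    intro hemp
    have h1 : ncp A F = 0 := by
      unfold ncp
      rw [hemp, Finset.sum_empty]
    rw [h1] at hev
    have h2 : ev (0 : PowerSeries ℤ) (1 / b) = 0 := by
      have := ev_C 0 (1 / b)
      simpa using this
    rw [h2, zero_add] at hev
    have h3 : e = 0 := by exact_mod_cast hev
    exact hA0 (by rw [← he, h3]; exact dvd_zero m)
  refine scale (rhs_mono b A x y) (one_le_rhs b A x y hSne) (C := Ct) (fun N => ?_) M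
  have h1 := int_arg2 hb (Sm_ncp A hSmF) hev (dvd_ncp A F hA) hmb (by rw [he]; exact hA0) N
  have h2 : (ln (ncp A F) (2 * N) : ℝ) ≤ cst A B * rhs b A x y (2 * N) := by
    refine ln_ncp A (by linarith) (d := fun i => (dist b (x i) (y i) (2 * N) : ℝ) + 1)
      (fun i => by positivity) fun i => ?_
    rw [hF]
    refine (ln_df hb1 (x i) (y i) (2 * N)).trans ?_
    exact mul_le_mul_of_nonneg_right (hBi i) (by positivity)
  have h6 : mass (ncp A F) ≤ cst A (4 * B) := by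
    refine mass_ncp A hSmF fun i => ?_
    have h7 := hSmF i
    rw [hF] at h7 ⊢
    refine (mass_bdd (df_abs_le hb1 (x i) (y i)) h7).trans ?_
    have := hBi i
    linarith
  have h3 := one_le_rhs b A x y hSne (2 * N)
  have h4 : (0 : ℝ) ≤ |(e : ℝ)| := abs_nonneg _
  have h5 := cst_nonneg A (B := 4 * B) (by linarith)
  have h8 : 0 ≤ (cst A (4 * B) + |(e : ℝ)|) * (rhs b A x y (2 * N) - 1) :=
    mul_nonneg (by linarith) (by linarith)
  rw [hC]
  linarith

end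

end Pool.Agent.N324.Dig
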